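import Pool.Agent.Y254.HK.All

/-!
# Hybrid estimates for tubes and for the Kakeya maximal function, without loss
-/

set_option autoImplicit false

open MeasureTheory Set Metric
open scoped ENNReal NNReal

namespace Pool.Agent.Y254HK
open Pool.Agent.Y254 (mult)
open Pool.Agent.Y254.EL (LF LoB EuF loss_removal allwP_of_LF)
open Pool.Agent.W46.KK (tube)
open Pool.Agent.Y244.HM (WeakP StrongP strongP)
open Pool.Agent.Y244.WR (TubeQ weakQ)

/-- The condition for the exponent. -/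
noncomputable def gg (d : ℕ) (c : ℝ) : ℝ := d * (c ^ 3 - 4 * c + 2) + c * (3 * c - 1 - c ^ 2)

theorem gg_open {d : ℕ} {c : ℝ} (hc1 : 1 < c) (hc : 0 < gg d c) :
    ∃ c' : ℝ, 1 < c' ∧ c' < c ∧ 0 < gg d c' := by
  have hcont : Continuous (gg d) := by unfold gg; fun_prop
  have h1 : ∀ᶠ x in nhdsWithin c (Iio c), 0 < gg d x :=
    (hcont.continuousAt.eventually (lt_mem_nhds hc)).filter_mono nhdsWithin_le_nhds
  have h2 : ∀ᶠ x in nhdsWithin c (Iio c), 1 < x :=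
    (lt_mem_nhds hc1).filter_mono nhdsWithin_le_nhds
  have h3 : ∀ᶠ x in nhdsWithin c (Iio c), x < c := self_mem_nhdsWithin
  obtain ⟨x, hx⟩ := (h1.and (h2.and h3)).exists
  exact ⟨x, hx.2.1, hx.2.2, hx.1⟩

/-- From the oracle with losses at one exponent to Euclidean tubes without loss at larger
exponents. -/
theorem euF_of_allE {d : ℕ} (hd : 2 ≤ d) {c' c : ℝ} (hc1 : 1 < c') (hcc : c' < c)
    (h : AllE d c') : ∃ C : ℝ, 0 < C ∧ EuF d (1 + c / d) C := by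
  have hdr : (2 : ℝ) ≤ d := by exact_mod_cast hd
  have hd0 : (0 : ℝ) < d := by linarith
  have hq : 1 + c' / d < 1 + c / d := by gcongr
  have hq0 : 1 + 1 / (d : ℝ) ≤ 1 + c' / d := by gcongr
  set q : ℝ := 1 + c / d with hqd
  rcases lt_or_ge (1 + 2 / ((d + 1 : ℕ) : ℝ)) q with h1 | h1
  · obtain ⟨A, hA, hw⟩ := Pool.Agent.Y254.wolff (n := d + 1) (by omega) h1
    refine ⟨A, hA, ?_⟩
    intro δ hδ hδ1 ι _ a e he hsep
    have h2 := hw δ hδ hδ1 a e he hsep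
    have e1 : (((d + 1 : ℕ) : ℝ) - 1) = d := by push_cast; ring
    rw [e1, Nat.add_sub_cancel] at h2
    exact h2
  · have hq2 : q ≤ 2 := by
      refine h1.trans ?_
      have : 2 / ((d + 1 : ℕ) : ℝ) ≤ 1 := by
        rw [div_le_one (by positivity)]
        push_cast
        linarith
      linarith
    have hLF : ∀ R : ℝ, 1 ≤ R → ∃ C : ℝ, 0 ≤ C ∧ LF d R q C := fun R hR =>
      loss_removal (by omega) hR hq0 hq hq2 fun ε hε =>
        Pool.Agent.Y244.HK.t_tube d c' (by omega) hc1 h R hR ε hε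
    have hq' : 1 + 1 / (d : ℝ) ≤ q := by linarith
    obtain ⟨C, hC, hT⟩ := Pool.Agent.Y244.HM.tubeP (by omega) hq'
      (allwP_of_LF (by omega) hq' hLF)
    refine ⟨C, hC, ?_⟩
    intro δ hδ hδ1 ι _ a e he hsep
    have h2 := hT δ hδ hδ1.le ι a e he hsep
    have e1 : C * δ ^ (d : ℝ) * (Fintype.card ι : ℝ) ^ (q - 1 / (d : ℝ)) =
        C * (δ ^ d * (Fintype.card ι : ℝ) ^ (q - 1 / (d : ℝ))) := by
      rw [Real.rpow_natCast]; ring
    rw [e1] at h2
    exact h2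

theorem euF_hk {d : ℕ} (hd : 14 ≤ d) {c : ℝ} (hc1 : 1 < c) (hc : 0 < gg d c) :
    ∃ C : ℝ, 0 < C ∧ EuF d (1 + c / d) C := by
  obtain ⟨c', h1, h2, h3⟩ := gg_open hc1 hc
  exact euF_of_allE (by omega) h1 h2 (allE hd h1 h3)

/-- The condition is kept by larger exponents. -/
theorem gg_mono {d : ℕ} (hd : 14 ≤ d) {c x : ℝ} (hc1 : 1 < c) (hc : 0 < gg d c) (hx : c ≤ x)
    (hx2 : x ≤ 3) : 0 < gg d x := by
  have hdR : (14 : ℝ) ≤ d := by exact_mod_cast hd
  have hd0 : (0 : ℝ) < d := by linarith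
  unfold gg at hc ⊢
  have hc8 : 8 / 5 ≤ c := by
    by_contra hlt
    push Not at hlt
    have h1 : c ^ 3 - 4 * c + 2 ≤ -(3 / 10) := by
      nlinarith [mul_nonneg (by linarith : 0 ≤ c - 1) (by linarith : 0 ≤ 8 / 5 - c),
        mul_nonneg (mul_nonneg (by linarith : 0 ≤ c - 1) (by linarith : 0 ≤ 8 / 5 - c))
          (by linarith : 0 ≤ c)]
    have h2 : (d : ℝ) * (c ^ 3 - 4 * c + 2) ≤ 14 * (-(3 / 10)) := by
      nlinarith
    have h3 : c * (3 * c - 1 - c ^ 2) ≤ 2 := by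
      have h4 : 3 * c - 1 - c ^ 2 ≤ 5 / 4 := by nlinarith [sq_nonneg (c - 3 / 2)]
      have h5 : c * (3 * c - 1 - c ^ 2) ≤ c * (5 / 4) := mul_le_mul_of_nonneg_left h4 (by linarith)
      linarith
    linarith
  have h5 : (x - c) * (d * (x ^ 2 + x * c + c ^ 2 - 4) +
      (3 * (x + c) - 1 - (x ^ 2 + x * c + c ^ 2))) =
      (d * (x ^ 3 - 4 * x + 2) + x * (3 * x - 1 - x ^ 2)) -
        (d * (c ^ 3 - 4 * c + 2) + c * (3 * c - 1 - c ^ 2)) := by
    ring
  have h6 : 0 ≤ (x - c) * (d * (x ^ 2 + x * c + c ^ 2 - 4) +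
      (3 * (x + c) - 1 - (x ^ 2 + x * c + c ^ 2))) := by
    apply mul_nonneg (by linarith)
    have h7 : 3 ≤ x ^ 2 + x * c + c ^ 2 - 4 := by nlinarith
    have h8 : x ^ 2 + x * c + c ^ 2 ≤ 27 := by nlinarith
    have h9 : 14 * 3 ≤ (d : ℝ) * (x ^ 2 + x * c + c ^ 2 - 4) := by
      nlinarith
    linarith
  linarith

/-- The inequality for all larger exponents. -/
theorem tubes_hk {d : ℕ} (hd : 14 ≤ d) {c q : ℝ} (hc1 : 1 < c) (hc : 0 < gg d c)
    (hq : 1 + c / d ≤ q) : ∃ C : ℝ, 0 < C ∧ EuF d q C := by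
  have hdR : (14 : ℝ) ≤ d := by exact_mod_cast hd
  have hd0 : (0 : ℝ) < d := by linarith
  obtain ⟨x, hx⟩ : ∃ x : ℝ, x = (q - 1) * d := ⟨_, rfl⟩
  have hqx : q = 1 + x / d := by rw [hx]; field_simp; ring
  have hcx : c ≤ x := by
    rw [hqx] at hq
    have h1 : c / d ≤ x / d := by linarith
    exact (div_le_div_iff_of_pos_right hd0).1 h1
  rcases le_or_gt x 3 with h3 | h3
  · rw [hqx]
    exact euF_hk hd (by linarith) (gg_mono hd hc1 hc hcx h3)
  · have h1 : 1 + 2 / ((d + 1 : ℕ) : ℝ) < q := by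
      rw [hqx]
      have h2 : 2 / ((d + 1 : ℕ) : ℝ) < x / d := by
        rw [div_lt_div_iff₀ (by positivity) hd0]
        push_cast
        nlinarith
      linarith
    obtain ⟨A, hA, hw⟩ := Pool.Agent.Y254.wolff (n := d + 1) (by omega) h1
    refine ⟨A, hA, ?_⟩
    intro δ hδ hδ1 ι _ a e he hsep
    have h2 := hw δ hδ hδ1 a e he hsep
    have e1 : (((d + 1 : ℕ) : ℝ) - 1) = d := by push_cast; ring
    rw [e1, Nat.add_sub_cancel] at h2
    exact h2

/-- Maximal estimates without loss from the oracle with losses. -/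
theorem max_of_allE {d : ℕ} (hd : 2 ≤ d) {c' c : ℝ} (hc1 : 1 < c') (hcc : c' < c)
    (h : AllE d c') : WeakP d c ∧ StrongP d c := by
  obtain ⟨C, hC, hF⟩ := euF_of_allE hd hc1 hcc h
  have hT : TubeQ d (1 + c / d) := by
    refine ⟨C, hC, ?_⟩
    intro δ hδ hδ1 ι _ a e he hsep
    have h2 := hF δ hδ hδ1 ι a e he hsep
    have e1 : C * δ ^ (d : ℝ) * (Fintype.card ι : ℝ) ^ (1 + c / (d : ℝ) - 1 / (d : ℝ)) =
        C * (δ ^ d * (Fintype.card ι : ℝ) ^ (1 + c / (d : ℝ) - 1 / (d : ℝ))) := by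
      rw [Real.rpow_natCast]; ring
    rw [e1]
    exact h2
  have h1 := weakQ (by omega) (by linarith) hT Pool.Agent.W131.HM.CAP Pool.Agent.W131.HM.VOL
  exact ⟨h1, strongP (by omega) (by linarith) h1⟩

theorem max_hk {d : ℕ} (hd : 14 ≤ d) {c : ℝ} (hc1 : 1 < c) (hc : 0 < gg d c) :
    WeakP d c ∧ StrongP d c := by
  obtain ⟨c', h1, h2, h3⟩ := gg_open hc1 hc
  exact max_of_allE (by omega) h1 h2 (allE hd h1 h3)

end Pool.Agent.Y254HK
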