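import Pool.Agent.Y254.HK.IterG
import Pool.Agent.Y254.HK.Final
import Pool.Agent.Y812.HK.LHG
import Pool.Agent.Y812.HK.LDG
import Pool.Agent.Y761.HK.StartG
import Pool.Agent.Y421.HK.Dense
import Pool.Agent.Y51.HKG.A1
import Pool.Agent.Y51.HKG.B1
import Pool.Agent.Y51.HKG.W
import Pool.Agent.Y51.HKG.B2C1
import Pool.Agent.Y51.HKG.A2K1
import Pool.Agent.Y587.HK.Corep

/-!
# Hybrid estimates: general coefficient, all dimensions
-/

set_option autoImplicit false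

open MeasureTheory Set Metric
open scoped ENNReal NNReal

namespace Pool.Agent.Y254HK
open Pool.Agent.Y254 (mult)
open Pool.Agent.Y254.EL (LF LoB EuF loss_removal allwP_of_LF)
open Pool.Agent.W46.KK (tube)
open Pool.Agent.Y244.HM (WeakP StrongP strongP)
open Pool.Agent.Y244.WR (TubeQ weakQ)

theorem extG : S_EXTG :=
  t_extg Pool.Agent.Y655.HKTWO.t_two Pool.Agent.Y812.HKG.LH.t_lhg Pool.Agent.Y812.HKG.Ld.t_ldg
    Pool.Agent.Y86.HK.t_sumh Pool.Agent.Y86.HK.t_sumd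

theorem coreG : S_COREG := by
  have hBOX := Pool.Agent.Y710.HK.t_box
  have hF9 := Pool.Agent.Y290.HK.t_f9 hBOX
  have hW := Pool.Agent.Y51.HKG.t_wg
  exact t_coreg Pool.Agent.Y624.HK.t_cfgu Pool.Agent.Y721.HK.t_fa (Pool.Agent.Y37.HK.t_fb hBOX)
    (Pool.Agent.Y657.HK3.t_f3 hBOX) (Pool.Agent.Y141.HK.t_f4 hBOX) (Pool.Agent.Y290.HK.t_f6 hBOX)
    (Pool.Agent.Y971.HK.t_f8 hBOX) hF9
    (Pool.Agent.Y297HK.t_fcA Pool.Agent.Y899.HK.t_cord Pool.Agent.Y484.HK.t_plc)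
    (Pool.Agent.Y297HK.t_fcB Pool.Agent.Y899.HK.t_cord Pool.Agent.Y484.HK.t_plc) hW
    (Pool.Agent.Y51.HKG.t_a1g hW) Pool.Agent.Y51.HKG.t_a2g Pool.Agent.Y51.HKG.t_k1g
    (Pool.Agent.Y51.HKG.t_b1g hW) Pool.Agent.Y51.HKG.t_b2g Pool.Agent.Y51.HKG.t_c1g
    (Pool.Agent.Y275.HK.t_fw hBOX hF9)

/-- For sets: the counting inequality with losses, in every dimension. -/
theorem dense_hk {d : ℕ} (hd : 1 ≤ d) {c : ℝ} (hc1 : 1 < c) (hc : 0 < gg d c) : DenseG d c := by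
  obtain ⟨G, hG⟩ := iter_sets coreG Pool.Agent.Y587.HK.t_corep extG Pool.Agent.Y761.HK.t_startg
    hd hc1 hc
  exact Pool.Agent.Y421.HK.t_denseg d c G (by linarith) hG

/-- The condition of the mixture, with weight `x`. -/
structure Cd (d : ℕ) (x c : ℝ) : Prop where
  x0 : 0 ≤ x
  x1 : x ≤ 1
  c1 : 1 < c
  g : 0 < d * (c ^ 3 - 4 * c + 2) + x * (c * (3 * c - 1 - c ^ 2))
  k : 4 * c ^ 2 + 5 * c - 4 + x * (3 * c ^ 2 + 1) < d * (c ^ 2 - 1) + x * (3 * c - 1 - c ^ 2)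

theorem allE_mix {d : ℕ} (hd : 9 ≤ d) {x c : ℝ} (h : Cd d x c) : AllE d c :=
  iter_max coreG Pool.Agent.Y587.HK.t_corep extG Pool.Agent.Y761.HK.t_startg hd h.x0 h.x1 h.c1
    h.g h.k.le

theorem Cd.open {d : ℕ} {x c : ℝ} (h : Cd d x c) : ∃ c' : ℝ, c' < c ∧ Cd d x c' := by
  have hcont1 : Continuous fun y : ℝ =>
      (d : ℝ) * (y ^ 3 - 4 * y + 2) + x * (y * (3 * y - 1 - y ^ 2)) := by fun_prop
  have hcont2 : Continuous fun y : ℝ => (d : ℝ) * (y ^ 2 - 1) + x * (3 * y - 1 - y ^ 2) -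
      (4 * y ^ 2 + 5 * y - 4 + x * (3 * y ^ 2 + 1)) := by fun_prop
  have h1 : ∀ᶠ y in nhdsWithin c (Iio c),
      0 < (d : ℝ) * (y ^ 3 - 4 * y + 2) + x * (y * (3 * y - 1 - y ^ 2)) :=
    (hcont1.continuousAt.eventually (lt_mem_nhds h.g)).filter_mono nhdsWithin_le_nhds
  have h2 : ∀ᶠ y in nhdsWithin c (Iio c), 0 < (d : ℝ) * (y ^ 2 - 1) + x * (3 * y - 1 - y ^ 2) -
      (4 * y ^ 2 + 5 * y - 4 + x * (3 * y ^ 2 + 1)) :=
    (hcont2.continuousAt.eventually (lt_mem_nhds (by linarith [h.k]))).filter_mono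
      nhdsWithin_le_nhds
  have h3 : ∀ᶠ y in nhdsWithin c (Iio c), 1 < y :=
    (lt_mem_nhds h.c1).filter_mono nhdsWithin_le_nhds
  have h4 : ∀ᶠ y in nhdsWithin c (Iio c), y < c := self_mem_nhdsWithin
  obtain ⟨y, a1, a2, a3, a4⟩ := (h1.and (h2.and (h3.and h4))).exists
  exact ⟨y, a4, h.x0, h.x1, a3, a1, by linarith⟩

/-- Tubes, without loss, for all exponents `q ≥ 1 + c / d`. -/
theorem tubes_mix {d : ℕ} (hd : 9 ≤ d) {x c q : ℝ} (h : Cd d x c) (hq : 1 + c / d ≤ q) :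
    ∃ C : ℝ, 0 < C ∧ EuF d q C := by
  have hdR : (9 : ℝ) ≤ d := by exact_mod_cast hd
  have hd0 : (0 : ℝ) < d := by linarith
  obtain ⟨c', h1, h2⟩ := h.open
  obtain ⟨y, hy⟩ : ∃ y : ℝ, y = (q - 1) * d := ⟨_, rfl⟩
  have hqy : q = 1 + y / d := by rw [hy]; field_simp; ring
  have hcy : c ≤ y := by
    rw [hqy] at hq
    have h1 : c / d ≤ y / d := by linarith
    exact (div_le_div_iff_of_pos_right hd0).1 h1
  rw [hqy]
  exact euF_of_allE (by omega) h2.c1 (lt_of_lt_of_le h1 hcy) (allE_mix hd h2)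

/-- Maximal estimates, without loss. -/
theorem max_mix {d : ℕ} (hd : 9 ≤ d) {x c : ℝ} (h : Cd d x c) : WeakP d c ∧ StrongP d c := by
  obtain ⟨c', h1, h2⟩ := h.open
  exact max_of_allE (by omega) h2.c1 h1 (allE_mix hd h2)

end Pool.Agent.Y254HK
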