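import Pool.Agent.Y244.HM.Final
import Pool.Agent.W597.HD.CFG
import Pool.Agent.Y254.EL.Zoom

/-!
# A hybrid of the hairbrush and of the Katz-Tao iteration: statements of the parts (project HK)

Set-up of `Pool.Agent.W46.HD.Stm`, `Pool.Agent.W46.HM.Stm`, `Pool.Agent.Y244.HM.Stm`.
-/

set_option autoImplicit false

open Finset
open scoped Classical

namespace Pool.Agent.Y254HK
open Pool.Agent.W904.AK Pool.Agent.W46.HD Pool.Agent.W46.HM Pool.Agent.Y244.HM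
  Pool.Agent.W597.HD

/-! ### Separation of heights and directions -/

/-- `log⁺ (n / |x - y|)` for integers -/
noncomputable def pz (n : ℕ) (x y : ℤ) : ℝ :=
  Real.log (max 1 ((n : ℝ) / max 1 |(x : ℝ) - (y : ℝ)|))

/-- `log⁺` of the inverse of the distance of the directions of two lines (at most `log n`) -/
noncomputable def dz {Ω : Type} {d : ℕ} (n : ℕ) (D : Ω → Fin d → ℝ) (ω ω' : Ω) : ℝ :=
  Real.log (max 1 ((n : ℝ) / max 1 ((n : ℝ) * ‖D ω - D ω'‖)))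

/-- Expected `dz` of two independent lines through a random point. -/
noncomputable def ang {Ω : Type} [Fintype Ω] {d n : ℕ} (A D : Ω → Fin d → ℝ)
    (p : Ω × Fin n → ℝ) : ℝ :=
  ∑ z, glue p p (ce A D) (ce A D) z * dz n D z.1.1 z.2.1

/-- Two-ends condition in a uniform form: expected `pz` to any integer, line by line. -/
def SepM {Ω : Type} [Fintype Ω] {n : ℕ} (p : Ω × Fin n → ℝ) (S : ℝ) : Prop :=
  ∃ s : Ω → ℝ, (∀ (ω : Ω) (x : ℤ), ∑ j : Fin n, p (ω, j) * pz n ((j : ℕ) : ℤ) x ≤ s ω) ∧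
    ∑ ω, s ω ≤ S

/-! ### Oracles -/

/-- The general oracle with exponent `b`, coefficient `d` of the deficiency and loss `n ^ ε`. -/
def AllE (d : ℕ) (b : ℝ) : Prop := ∀ ε : ℝ, 0 < ε → ∃ C : ℝ, 0 ≤ C ∧
    ∀ (n : ℕ) (Ω : Type) [Fintype Ω] (A D : Ω → Fin d → ℝ), IsFam n D →
      OrM n A D b d (ε * Real.log n + C)

/-- The oracle for two-ends, broad laws. -/
def AllB (d : ℕ) (b : ℝ) : Prop := ∀ ε : ℝ, 0 < ε → ∃ C : ℝ, 0 ≤ C ∧
    ∀ (n : ℕ) (Ω : Type) [Fintype Ω] (A D : Ω → Fin d → ℝ), IsFam n D →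
    ∀ p : Ω × Fin n → ℝ, IsLaw p → ∀ S : ℝ, SepM p S → ang A D p ≤ S →
      aa p ≤ b * hh A D p + d * lam p + ε * Real.log n + C * (1 + S)

/-- The core inequality for two-ends, broad laws. -/
def CoreB (d : ℕ) (b Γ K : ℝ) : Prop := ∀ ε : ℝ, 0 < ε → ∃ C : ℝ, 0 ≤ C ∧
    ∀ (n : ℕ) (Ω : Type) [Fintype Ω] (A D : Ω → Fin d → ℝ), IsFam n D →
    ∀ p : Ω × Fin n → ℝ, IsLaw p → ∀ S : ℝ, SepM p S → ang A D p ≤ S →
      (b ^ 2 + 3 * b - 2) * aa p + Γ * Real.log n ≤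
        (3 * b ^ 2 + 2 * b - 2) * hh A D p + K * lam p + ε * Real.log n + C * (1 + S)

/-- `aa - b hh - G lam - mi` -/
noncomputable def Lam {Ω : Type} [Fintype Ω] {d n : ℕ} (A D : Ω → Fin d → ℝ) (b G : ℝ)
    (p : Ω × Fin n → ℝ) : ℝ := aa p - b * hh A D p - G * lam p - mi p

/-! ### General tools -/

/-- If two values of `g` with the same value of `f` are at distance at most `R + R'`, then `g` costs
`log R`. -/
def S_BOX : Prop := ∀ (k : ℕ) (c0 : ℝ), 0 ≤ c0 → ∃ C : ℝ, 0 ≤ C ∧ ∀ (Θ : Type) [Fintype Θ]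
    (α : Type) (q : Θ → ℝ) (f : Θ → α) (g : Θ → Fin k → ℤ) (R : Θ → ℝ) (n : ℕ), 1 ≤ n → IsLaw q →
    (∀ x, q x ≠ 0 → 1 ≤ R x ∧ Real.log (R x) ≤ c0 * (1 + Real.log n)) →
    (∀ x y, q x ≠ 0 → q y ≠ 0 → f x = f y → ∀ i, |(g x i : ℝ) - g y i| ≤ R x + R y) →
    H q (fun x => (f x, g x)) ≤ H q f + k * ∑ x, q x * Real.log (R x) +
      C * (1 + Real.log (1 + Real.log n))

/-- Number of lines with direction near a line and near a given direction. -/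
def S_PLC : Prop := ∀ d : ℕ, ∃ C : ℝ, 0 ≤ C ∧ ∀ (n : ℕ) (Ω : Type) [Fintype Ω]
    (D : Ω → Fin d → ℝ), IsFam n D → ∀ (a u : Fin d → ℝ) (ω0 : Ω) (r ρ : ℝ), 1 ≤ r → 1 ≤ ρ →
    ∀ T : Finset Ω, (∀ ω ∈ T, (n : ℝ) * ‖D ω - D ω0‖ ≤ r ∧
      ∃ x : ℝ, (n : ℝ) * ‖D ω - (a + x • u)‖ ≤ ρ) → (T.card : ℝ) ≤ C * r * ρ ^ d

/-- Cordoba's argument for lines which are planar given `R`. -/
def S_CORD : Prop := ∀ d : ℕ, ∃ C : ℝ, 0 ≤ C ∧ ∀ (n : ℕ) (Ω : Type) [Fintype Ω]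
    (A D : Ω → Fin d → ℝ), IsFam n D → ∀ (Θ : Type) [Fintype Θ] (γ : Type) (q : Θ → ℝ)
    (l : Θ → Ω) (j : Θ → Fin n) (R : Θ → γ) (K : Θ → ℝ), IsLaw q →
    (∀ z, q z ≠ 0 → 0 ≤ K z) →
    (∀ z, q z ≠ 0 → ∀ r : ℝ, 1 ≤ r → ∀ T : Finset Ω,
      (∀ ω ∈ T, (n : ℝ) * ‖D ω - D (l z)‖ ≤ r ∧ ∃ z', q z' ≠ 0 ∧ R z' = R z ∧ l z' = ω ∧
        cell A D (j z') ω = cell A D (j z') (l z)) → (T.card : ℝ) ≤ r * Real.exp (K z)) →
    2 * H q (fun z => (R z, l z, j z)) ≤ H q (fun z => (R z, l z)) +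
      H q (fun z => (R z, j z, cell A D (j z) (l z))) + Real.log n + ∑ z, q z * K z +
      C * (1 + Real.log (1 + Real.log n))

/-! ### The configuration -/

/-- The configuration of `CfgT` with further properties. -/
structure CfgU {Ω : Type} [Fintype Ω] {d n : ℕ} (A D : Ω → Fin d → ℝ) (p : Ω × Fin n → ℝ) (S : ℝ)
    {Θ : Type} [Fintype Θ] (q : Θ → ℝ) (l1 l2 l3 : Θ → Ω) (s0 s1 t t' τ v : Θ → Fin n) :
    Prop extends CfgT A D p q l1 l2 l3 s0 s1 t t' τ v where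
  pq : H q (fun z => (s0 z, v z, cell A D (s0 z) (l1 z), cell A D (v z) (l2 z))) =
    H q (fun z => (t z, t' z, cell A D (t z) (l1 z), cell A D (t' z) (l3 z)))
  mar2 : H q (fun z => (s0 z, v z, cell A D (s0 z) (l1 z), cell A D (v z) (l2 z))) +
      aa p - hh A D p - lam p ≤ H q (fun z => (s0 z, v z, cell A D (v z) (l2 z), l3 z))
  f5 : H q (fun z => (l1 z, l3 z, s0 z)) + (Real.log n - lam p) ≤
    H q (fun z => (l1 z, l3 z, s0 z, s1 z))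
  sep_le : sep p ≤ S
  a13 : ∑ z, q z * dz n D (l1 z) (l3 z) ≤ S
  tt' : ∑ z, q z * pz n ((t z : ℕ) : ℤ) ((t' z : ℕ) : ℤ) ≤ S
  τx : ∀ x : Fin n → Fin n → Fin n → Fin n → ℤ,
    ∑ z, q z * pz n ((τ z : ℕ) : ℤ) (x (s0 z) (s1 z) (t z) (t' z)) ≤ S

/-- Existence of the configuration. -/
def S_CFGU : Prop := ∀ (Ω : Type) [Fintype Ω] (d n : ℕ) (A D : Ω → Fin d → ℝ)
    (p : Ω × Fin n → ℝ) (S : ℝ), 1 ≤ n → IsLaw p → SepM p S → ang A D p ≤ S →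
    ∃ (Θ : Type) (_ : Fintype Θ) (q : Θ → ℝ) (l1 l2 l3 : Θ → Ω) (s0 s1 t t' τ v : Θ → Fin n),
      CfgU A D p S q l1 l2 l3 s0 s1 t t' τ v

section Fns

variable {Θ Ω : Type} {d n : ℕ}

/-- The integer `y` of the configuration. -/
noncomputable def YY (s0 s1 t t' : Θ → Fin n) (z : Θ) : ℤ := yy (s0 z) (s1 z) (t z) (t' z)

/-- Height and cell of the point `Z` on the line through `l1(t)` and `l3(t')`. -/
noncomputable def XX (A D : Ω → Fin d → ℝ) (l1 l3 : Θ → Ω) (s0 s1 t t' : Θ → Fin n) (z : Θ) :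
    ℤ × (Fin d → ℤ) :=
  (((s1 z : ℕ) : ℤ) + YY s0 s1 t t' z, cz A D (s1 z) (YY s0 s1 t t' z) (l1 z) (l3 z))

/-- The integer `m` of the configuration. -/
noncomputable def MM (s0 s1 t t' τ v : Θ → Fin n) (z : Θ) : ℤ :=
  mm (s1 z) (v z) (τ z) (YY s0 s1 t t' z)

/-- Height and cell of the point `G` on the line through `l2(τ)` and `Z`. -/
noncomputable def WW (A D : Ω → Fin d → ℝ) (l2 l3 : Θ → Ω) (s0 s1 t t' τ v : Θ → Fin n) (z : Θ) :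
    ℤ × (Fin d → ℤ) :=
  (((v z : ℕ) : ℤ) + MM s0 s1 t t' τ v z, cz A D (v z) (MM s0 s1 t t' τ v z) (l2 z) (l3 z))

/-- Deficiency of `τ` given the three lines, the heights and `m`. -/
noncomputable def wG [Fintype Θ] (q : Θ → ℝ) (l1 l2 l3 : Θ → Ω)
    (s0 s1 t t' τ v : Θ → Fin n) : ℝ :=
  Real.log n - (H q (fun z => (l1 z, l2 z, l3 z, s0 z, s1 z, v z, MM s0 s1 t t' τ v z, τ z)) -
    H q (fun z => (l1 z, l2 z, l3 z, s0 z, s1 z, v z, MM s0 s1 t t' τ v z)))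

end Fns

/-! ### Geometric facts about the configuration

Each fact has the form `H (f, g) ≤ H f + E`: `g` is determined by `f` up to a small cost `E`. -/

section Facts

variable {Ω : Type} {d n : ℕ} (A D : Ω → Fin d → ℝ) {Θ : Type} [Fintype Θ] (q : Θ → ℝ)
  (l1 l2 l3 : Θ → Ω) (s0 s1 t t' τ v : Θ → Fin n) (E : ℝ)

/-- Sizes of the integers, and the facts already used in `Y244/HM`. -/
structure FA : Prop where
  sz : H q (fun z => (XX A D l1 l3 s0 s1 t t' z).1) ≤ Real.log n + E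
  sg : H q (fun z => (WW A D l2 l3 s0 s1 t t' τ v z).1) ≤ Real.log n + E
  sy : H q (YY s0 s1 t t') ≤ Real.log n + E
  sm : H q (MM s0 s1 t t' τ v) ≤ Real.log n + E
  g6 : H q (fun z => ((s0 z, s1 z, t z, YY s0 s1 t t' z), t' z)) ≤
    H q (fun z => (s0 z, s1 z, t z, YY s0 s1 t t' z)) + E
  g5 : H q (fun z => ((s1 z, v z, τ z, MM s0 s1 t t' τ v z), YY s0 s1 t t' z)) ≤
    H q (fun z => (s1 z, v z, τ z, MM s0 s1 t t' τ v z)) + E
  g3 : H q (fun z => ((l1 z, s1 z, XX A D l1 l3 s0 s1 t t' z), l3 z)) ≤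
    H q (fun z => (l1 z, s1 z, XX A D l1 l3 s0 s1 t t' z)) + E
  c3 : H q (fun z => ((WW A D l2 l3 s0 s1 t t' τ v z, v z, cell A D (v z) (l2 z)), l3 z)) ≤
    H q (fun z => (WW A D l2 l3 s0 s1 t t' τ v z, v z, cell A D (v z) (l2 z))) + E
  c1 : H q (fun z => ((l2 z, l3 z, s0 z, s1 z), l1 z)) ≤
    H q (fun z => (l2 z, l3 z, s0 z, s1 z)) + E

/-- Facts which use the angle of `l1` and `l3`. -/
structure FB : Prop where
  d1 : H q (fun z => ((l1 z, l3 z), s0 z)) ≤ H q (fun z => (l1 z, l3 z)) + E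
  d5 : H q (fun z => ((l1 z, l3 z, XX A D l1 l3 s0 s1 t t' z), s1 z)) ≤
    H q (fun z => (l1 z, l3 z, XX A D l1 l3 s0 s1 t t' z)) + E

/-- `Z` from the cells of `l1(t)`, `l3(t')` and the three heights. -/
def F3 : Prop :=
  H q (fun z => ((t z, t' z, cell A D (t z) (l1 z), cell A D (t' z) (l3 z),
      (XX A D l1 l3 s0 s1 t t' z).1), XX A D l1 l3 s0 s1 t t' z)) ≤
    H q (fun z => (t z, t' z, cell A D (t z) (l1 z), cell A D (t' z) (l3 z),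
      (XX A D l1 l3 s0 s1 t t' z).1)) + E

/-- The cell of `l3(t')` from `l1`, `Z` and the heights `t`, `t'`. -/
def F4 : Prop :=
  H q (fun z => ((l1 z, XX A D l1 l3 s0 s1 t t' z, t z, t' z), cell A D (t' z) (l3 z))) ≤
    H q (fun z => (l1 z, XX A D l1 l3 s0 s1 t t' z, t z, t' z)) + E

/-- `t` from `t'`, `y` and the meeting heights. -/
def F6 : Prop :=
  H q (fun z => ((s0 z, s1 z, t' z, YY s0 s1 t t' z), t z)) ≤
    H q (fun z => (s0 z, s1 z, t' z, YY s0 s1 t t' z)) + E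

/-- `G` from the cell of `l2(τ)`, from `Z` and from the three heights. -/
def F8 : Prop :=
  H q (fun z => ((τ z, cell A D (τ z) (l2 z), XX A D l1 l3 s0 s1 t t' z,
      (WW A D l2 l3 s0 s1 t t' τ v z).1), WW A D l2 l3 s0 s1 t t' τ v z)) ≤
    H q (fun z => (τ z, cell A D (τ z) (l2 z), XX A D l1 l3 s0 s1 t t' z,
      (WW A D l2 l3 s0 s1 t t' τ v z).1)) + E

/-- `s1` from the heights `v`, `τ`, of `G` and of `Z`. -/
def F9 : Prop :=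
  H q (fun z => ((v z, τ z, (WW A D l2 l3 s0 s1 t t' τ v z).1,
      (XX A D l1 l3 s0 s1 t t' z).1), s1 z)) ≤
    H q (fun z => (v z, τ z, (WW A D l2 l3 s0 s1 t t' τ v z).1,
      (XX A D l1 l3 s0 s1 t t' z).1)) + E

/-- Cordoba's argument in the plane of `l1` and `Z`. -/
def FcA : Prop :=
  2 * H q (fun z => ((l1 z, XX A D l1 l3 s0 s1 t t' z), l3 z, t' z)) ≤
    H q (fun z => ((l1 z, XX A D l1 l3 s0 s1 t t' z), l3 z)) +
    H q (fun z => ((l1 z, XX A D l1 l3 s0 s1 t t' z), t' z, cell A D (t' z) (l3 z))) +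
    Real.log n + E

/-- Cordoba's argument in the plane of `l3` and the point of `l1` at the height `s1`. -/
def FcB : Prop :=
  2 * H q (fun z => (l3 z, l1 z, s1 z)) ≤ H q (fun z => (l3 z, l1 z)) +
    H q (fun z => (l3 z, s1 z, cell A D (s1 z) (l1 z))) + Real.log n + E

/-- The two heights `v`, `s1` from two heights of the type of `Z` (two independent copies of `τ`). -/
def FW : Prop :=
  H q (fun z => (l2 z, WW A D l2 l3 s0 s1 t t' τ v z, v z, s1 z)) ≤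
    H q (fun z => (l2 z, WW A D l2 l3 s0 s1 t t' τ v z)) +
    2 * (H q (fun z => (l2 z, WW A D l2 l3 s0 s1 t t' τ v z, τ z,
        (XX A D l1 l3 s0 s1 t t' z).1)) -
      H q (fun z => (l2 z, WW A D l2 l3 s0 s1 t t' τ v z, τ z))) +
    4 * wG q l1 l2 l3 s0 s1 t t' τ v + E

/-- All geometric facts. -/
structure Geo : Prop where
  fa : FA A D q l1 l2 l3 s0 s1 t t' τ v E
  fb : FB A D q l1 l3 s0 s1 t t' E
  f3 : F3 A D q l1 l3 s0 s1 t t' E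
  f4 : F4 A D q l1 l3 s0 s1 t t' E
  f6 : F6 q s0 s1 t t' E
  f8 : F8 A D q l1 l2 l3 s0 s1 t t' τ v E
  f9 : F9 A D q l1 l2 l3 s0 s1 t t' τ v E
  fcA : FcA A D q l1 l3 s0 s1 t t' E
  fcB : FcB A D q l1 l3 s1 E

end Facts

/-- A fact holds for all configurations with a small cost. -/
def Fact (F : ∀ (d n : ℕ) (Ω : Type) (A D : Ω → Fin d → ℝ) (Θ : Type) (_ : Fintype Θ) (q : Θ → ℝ)
    (l1 l2 l3 : Θ → Ω) (s0 s1 t t' τ v : Θ → Fin n) (E : ℝ), Prop) : Prop :=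
  ∀ (d : ℕ) (ε : ℝ), 0 < ε → ∃ C : ℝ, 0 ≤ C ∧ ∀ (n : ℕ) (Ω : Type) [Fintype Ω]
    (A D : Ω → Fin d → ℝ), IsFam n D → ∀ (p : Ω × Fin n → ℝ) (S : ℝ), IsLaw p →
    ∀ (Θ : Type) (iΘ : Fintype Θ) (q : Θ → ℝ) (l1 l2 l3 : Θ → Ω) (s0 s1 t t' τ v : Θ → Fin n),
    CfgU A D p S q l1 l2 l3 s0 s1 t t' τ v →
    F d n Ω A D Θ iΘ q l1 l2 l3 s0 s1 t t' τ v (ε * Real.log n + C * (1 + S))

def S_FA : Prop := Fact fun _ _ _ A D _ _ q l1 l2 l3 s0 s1 t t' τ v E =>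
  FA A D q l1 l2 l3 s0 s1 t t' τ v E
def S_FB : Prop := Fact fun _ _ _ A D _ _ q l1 _ l3 s0 s1 t t' _ _ E =>
  FB A D q l1 l3 s0 s1 t t' E
def S_F3 : Prop := Fact fun _ _ _ A D _ _ q l1 _ l3 s0 s1 t t' _ _ E =>
  F3 A D q l1 l3 s0 s1 t t' E
def S_F4 : Prop := Fact fun _ _ _ A D _ _ q l1 _ l3 s0 s1 t t' _ _ E =>
  F4 A D q l1 l3 s0 s1 t t' E
def S_F6 : Prop := Fact fun _ _ _ _ _ _ _ q _ _ _ s0 s1 t t' _ _ E => F6 q s0 s1 t t' E
def S_F8 : Prop := Fact fun _ _ _ A D _ _ q l1 l2 l3 s0 s1 t t' τ v E =>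
  F8 A D q l1 l2 l3 s0 s1 t t' τ v E
def S_F9 : Prop := Fact fun _ _ _ A D _ _ q l1 l2 l3 s0 s1 t t' τ v E =>
  F9 A D q l1 l2 l3 s0 s1 t t' τ v E
def S_FcA : Prop := Fact fun _ _ _ A D _ _ q l1 _ l3 s0 s1 t t' _ _ E =>
  FcA A D q l1 l3 s0 s1 t t' E
def S_FcB : Prop := Fact fun _ _ _ A D _ _ q l1 _ l3 _ s1 _ _ _ _ E => FcB A D q l1 l3 s1 E
def S_FW : Prop := Fact fun _ _ _ A D _ _ q l1 l2 l3 s0 s1 t t' τ v E =>
  FW A D q l1 l2 l3 s0 s1 t t' τ v E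

/-! ### Entropy inequalities (Shannon type) from the facts -/

/-- A consequence of the configuration, the facts and the oracle. -/
def Cons (F : ∀ (d n : ℕ) (Ω : Type) (_ : Fintype Ω) (A D : Ω → Fin d → ℝ) (p : Ω × Fin n → ℝ)
    (Θ : Type) (_ : Fintype Θ) (q : Θ → ℝ)
    (l1 l2 l3 : Θ → Ω) (s0 s1 t t' τ v : Θ → Fin n) (b E : ℝ), Prop) : Prop :=
  ∀ (d : ℕ) (b : ℝ), 1 < b → ∃ C : ℝ, 0 ≤ C ∧ ∀ (n : ℕ) (Ω : Type) (iΩ : Fintype Ω)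
    (A D : Ω → Fin d → ℝ), IsFam n D → ∀ (p : Ω × Fin n → ℝ) (S E C0 : ℝ), IsLaw p →
    ∀ (Θ : Type) (iΘ : Fintype Θ) (q : Θ → ℝ) (l1 l2 l3 : Θ → Ω) (s0 s1 t t' τ v : Θ → Fin n),
    CfgU A D p S q l1 l2 l3 s0 s1 t t' τ v → Geo A D q l1 l2 l3 s0 s1 t t' τ v E →
    0 ≤ E → 0 ≤ C0 → OrM n A D b d C0 →
    F d n Ω iΩ A D p Θ iΘ q l1 l2 l3 s0 s1 t t' τ v b (C * (E + C0))

/-- The deficiencies and the sizes of the configuration. -/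
def S_W : Prop := Cons fun _ n _ _ A D p _ _ q l1 l2 l3 s0 s1 t t' τ v _ E =>
  0 ≤ wT q l1 l3 s0 s1 t t' ∧ 0 ≤ wG q l1 l2 l3 s0 s1 t t' τ v ∧
  wT q l1 l3 s0 s1 t t' ≤ 2 * lam p + E ∧
  wT q l1 l3 s0 s1 t t' + wG q l1 l2 l3 s0 s1 t t' τ v ≤ 3 * lam p + E ∧
  2 * aa p - hh A D p + 3 * Real.log n - 5 * lam p + wT q l1 l3 s0 s1 t t' ≤
    H q (fun z => (l1 z, l3 z, s0 z, s1 z, YY s0 s1 t t' z)) + E ∧
  3 * aa p - 2 * hh A D p + 4 * Real.log n - 8 * lam p + wT q l1 l3 s0 s1 t t' +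
    wG q l1 l2 l3 s0 s1 t t' τ v ≤
    H q (fun z => (l1 z, l2 z, l3 z, s0 z, s1 z, v z, MM s0 s1 t t' τ v z)) + E

/-- The first inequality. -/
def S_A1 : Prop := Cons fun d n _ _ A D p _ _ q l1 _ l3 s0 s1 t t' _ _ b E =>
  2 * aa p - hh A D p + 3 * Real.log n + (b - 1) * H q (XX A D l1 l3 s0 s1 t t') ≤
    b * (H q (fun z => (t z, t' z, cell A D (t z) (l1 z), cell A D (t' z) (l3 z))) -
      (H q (fun z => ((cell A D (t z) (l1 z), XX A D l1 l3 s0 s1 t t' z, t z), t' z)) -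
        H q (fun z => (cell A D (t z) (l1 z), XX A D l1 l3 s0 s1 t t' z, t z)))) +
    (H q (fun z => ((l1 z, XX A D l1 l3 s0 s1 t t' z), s1 z)) -
      H q (fun z => (l1 z, XX A D l1 l3 s0 s1 t t' z))) +
    5 * lam p + (b + d - 1) * wT q l1 l3 s0 s1 t t' + E

/-- The use of Cordoba's argument in the first inequality. -/
def S_A2 : Prop := Cons fun _ n _ _ A D p _ _ q l1 _ l3 s0 s1 t t' _ _ _ E =>
  H q (fun z => ((l1 z, XX A D l1 l3 s0 s1 t t' z), s1 z)) -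
      H q (fun z => (l1 z, XX A D l1 l3 s0 s1 t t' z)) ≤
    (H q (fun z => ((cell A D (t z) (l1 z), XX A D l1 l3 s0 s1 t t' z, t z), t' z)) -
        H q (fun z => (cell A D (t z) (l1 z), XX A D l1 l3 s0 s1 t t' z, t z))) +
    2 * wT q l1 l3 s0 s1 t t' + E

/-- The meeting height `s0` given `l3` and the point of `l1` at the height `s1`. -/
def S_K1 : Prop := Cons fun _ n _ _ A D p _ _ q l1 _ l3 s0 s1 _ _ _ _ _ E =>
  H q (fun z => ((l3 z, s1 z, cell A D (s1 z) (l1 z)), s0 z)) ≤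
    H q (fun z => (l3 z, s1 z, cell A D (s1 z) (l1 z))) + lam p + E

/-- The second inequality, general form. -/
def S_B1 : Prop := Cons fun d n _ _ A D p _ _ q l1 l2 l3 s0 s1 t t' τ v b E =>
  3 * aa p - 2 * hh A D p + 4 * Real.log n +
      (b - 1) * H q (WW A D l2 l3 s0 s1 t t' τ v) ≤
    b * (hh A D p + Real.log n + H q (XX A D l1 l3 s0 s1 t t') -
      (H q (fun z => (l2 z, WW A D l2 l3 s0 s1 t t' τ v z, τ z,
        (XX A D l1 l3 s0 s1 t t' z).1)) -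
      H q (fun z => (l2 z, WW A D l2 l3 s0 s1 t t' τ v z, τ z)))) +
    (H q (fun z => (l2 z, WW A D l2 l3 s0 s1 t t' τ v z, v z, s1 z)) -
      H q (fun z => (l2 z, WW A D l2 l3 s0 s1 t t' τ v z))) +
    (H q (fun z => ((l3 z, s1 z, cell A D (s1 z) (l1 z)), s0 z)) -
      H q (fun z => (l3 z, s1 z, cell A D (s1 z) (l1 z)))) +
    8 * lam p - wT q l1 l3 s0 s1 t t' + (b + d - 1) * wG q l1 l2 l3 s0 s1 t t' τ v + E

/-- The simple bound for the entropy of `v`, `s1` given `l2` and `G`. -/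
def S_B2 : Prop := Cons fun _ n _ _ A D p _ _ q l1 l2 l3 s0 s1 t t' τ v _ E =>
  H q (fun z => (l2 z, WW A D l2 l3 s0 s1 t t' τ v z, v z, s1 z)) -
      H q (fun z => (l2 z, WW A D l2 l3 s0 s1 t t' τ v z)) ≤
    (H q (fun z => (l2 z, WW A D l2 l3 s0 s1 t t' τ v z, τ z,
        (XX A D l1 l3 s0 s1 t t' z).1)) -
      H q (fun z => (l2 z, WW A D l2 l3 s0 s1 t t' τ v z, τ z))) + Real.log n +
    wG q l1 l2 l3 s0 s1 t t' τ v + E

/-- The third inequality. -/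
def S_C1 : Prop := Cons fun _ n _ _ A D p _ _ q l1 l2 l3 s0 s1 t t' τ v _ E =>
  H q (fun z => (t z, t' z, cell A D (t z) (l1 z), cell A D (t' z) (l3 z))) + aa p -
      2 * hh A D p - Real.log n - 4 * lam p + wT q l1 l3 s0 s1 t t' +
      wG q l1 l2 l3 s0 s1 t t' τ v ≤ H q (WW A D l2 l3 s0 s1 t t' τ v) + E

/-- The core, simple form. -/
def S_CORE : Prop := ∀ (d : ℕ) (b : ℝ), 1 < b → b < 2 → AllE d b →
    CoreB d b (5 * b - 2 - 2 * b ^ 2) (4 * b ^ 2 + 11 * b - 6 + (3 * b - 1) * d)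

/-- The core, full form. -/
def S_CORE2 : Prop := ∀ (d : ℕ) (b : ℝ), 1 < b → b < 2 → AllE d b →
    CoreB d b (3 * b - 1 - b ^ 2) (6 * b ^ 2 + 8 * b - 5 + (3 * b - 1) * d)

/-! ### From broad, two-ends laws to all laws -/

/-- Splitting a law into two classes. -/
def S_TWO : Prop := ∀ (d n : ℕ) (Ω : Type) [Fintype Ω] (A D : Ω → Fin d → ℝ) (b G : ℝ), 0 ≤ b →
    0 ≤ G → ∀ p : Ω × Fin n → ℝ, IsLaw p → ∀ (U : Ω × Fin n → Bool) (M1 M0 : ℝ),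
    (im p U true ≠ 0 → Lam A D b G (cd p U true) ≤ M1) →
    (im p U false ≠ 0 → Lam A D b G (cd p U false) ≤ M0) →
    Lam A D b G p ≤ im p U true * M1 + im p U false * M0 + (G + 2) * H p U

/-- Localization to intervals of heights of length `2 ^ k`, one for each line. -/
def S_LH : Prop := ∀ d : ℕ, ∃ C : ℝ, 0 ≤ C ∧ ∀ (b M : ℝ) (k : ℕ), 0 ≤ b →
    (∀ (Ω : Type) [Fintype Ω] (A D : Ω → Fin d → ℝ), IsFam (2 ^ k) D →
      OrM (2 ^ k) A D b d M) →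
    ∀ (n : ℕ) (Ω : Type) [Fintype Ω] (A D : Ω → Fin d → ℝ), IsFam n D → 2 ^ k ≤ n →
    ∀ p : Ω × Fin n → ℝ, IsLaw p → (∃ a : Ω → ℕ, ∀ z, p z ≠ 0 → (z.2 : ℕ) / 2 ^ k = a z.1) →
      aa p ≤ b * hh A D p + d * lam p + mi p + M + C

/-- Localization to caps of directions of side `2 ^ (-k)`, one for each point. -/
def S_LD : Prop := ∀ (d : ℕ) (b : ℝ), 1 ≤ b → ∃ C : ℝ, 0 ≤ C ∧ ∀ (M : ℝ) (k n : ℕ), 2 ^ k ≤ n →
    (∀ (Ω : Type) [Fintype Ω] (A D : Ω → Fin d → ℝ), IsFam ((n + 2 ^ k - 1) / 2 ^ k) D →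
      OrM ((n + 2 ^ k - 1) / 2 ^ k) A D b d M) →
    ∀ (Ω : Type) [Fintype Ω] (A D : Ω → Fin d → ℝ), IsFam n D →
    ∀ p : Ω × Fin n → ℝ, IsLaw p →
      (∃ κ : Fin n × (Fin d → ℤ) → Fin d → ℤ, ∀ z, p z ≠ 0 →
        (fun i => ⌊(2 : ℝ) ^ k * D z.1 i⌋) = κ (ce A D z)) →
      aa p ≤ b * hh A D p + d * lam p + mi p + M + C

/-- The two-ends condition from bounds for dyadic intervals. -/
def S_SUMH : Prop := ∀ (n : ℕ) (Ω : Type) [Fintype Ω] (p : Ω × Fin n → ℝ), 1 ≤ n → IsLaw p →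
    ∀ r : ℕ → ℝ, (∀ k, k ≤ Nat.log 2 n → ∀ a : Ω → ℕ,
      ∑ z, (if (z.2 : ℕ) / 2 ^ k = a z.1 then p z else 0) ≤ r k) →
    SepM p (1 + 4 * ∑ k ∈ Finset.range (Nat.log 2 n + 1), r k)

/-- Broadness from bounds for dyadic caps. -/
def S_SUMD : Prop := ∀ (d n : ℕ) (Ω : Type) [Fintype Ω] (A D : Ω → Fin d → ℝ)
    (p : Ω × Fin n → ℝ), IsFam n D → IsLaw p →
    ∀ r : ℕ → ℝ, (∀ k, k ≤ Nat.log 2 n → ∀ κ : Fin n × (Fin d → ℤ) → Fin d → ℤ,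
      ∑ z, (if (fun i => ⌊(2 : ℝ) ^ k * D z.1 i⌋) = κ (ce A D z) then p z else 0) ≤ r k) →
    ang A D p ≤ 3 ^ d * ∑ k ∈ Finset.range (Nat.log 2 n + 1), r k

/-- From broad, two-ends laws to all laws. -/
def S_EXT : Prop := ∀ (d : ℕ) (b : ℝ), 1 ≤ b → AllB d b → AllE d b

/-! ### Start, end -/

/-- The start of the iteration. -/
def S_START : Prop := ∀ (d : ℕ) (c : ℝ), 9 ≤ d → 1 < c → 0 < c ^ 3 - 4 * c + 2 → AllE d c

/-- From the oracle to tubes. -/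
def S_TUBE : Prop := ∀ (d : ℕ) (c : ℝ), 1 ≤ d → 1 < c → AllE d c → ∀ R : ℝ, 1 ≤ R →
    ∀ ε : ℝ, 0 < ε → ∃ C : ℝ, 0 ≤ C ∧ Pool.Agent.Y254.EL.LoB d R (1 + c / d) ε C

end Pool.Agent.Y254HK
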