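import Pool.Agent.Y254.HK.Iter
import Pool.Agent.Y254.EL.Dual3
import Pool.Agent.Y710.HK.Box
import Pool.Agent.Y484.HK.Plc
import Pool.Agent.Y899.HK.Cord
import Pool.Agent.Y624.HK.CFGU
import Pool.Agent.Y721.HK.FAf
import Pool.Agent.Y37.HK.Fb
import Pool.Agent.Y657.HK3.F3
import Pool.Agent.Y141.HK.F4
import Pool.Agent.Y290.HK.F69
import Pool.Agent.Y971.HK.F8
import Pool.Agent.Y297.HK.Fc
import Pool.Agent.Y275.HK.FW
import Pool.Agent.Y899.HK.W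
import Pool.Agent.Y705.HK.A1
import Pool.Agent.Y888.HK.A2K1
import Pool.Agent.Y705.HK.B1
import Pool.Agent.Y638.HK.B2C1
import Pool.Agent.Y655.HK.Two
import Pool.Agent.Y941.HK.LH
import Pool.Agent.Y925.HK.Ld
import Pool.Agent.Y86.HK.Sum
import Pool.Agent.Y210.HK.Start
import Pool.Agent.Y244.HK.P10

/-!
# The hybrid estimates: all parts together
-/

set_option autoImplicit false

open Finset
open scoped Classical

namespace Pool.Agent.Y254HK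
open Pool.Agent.W904.AK Pool.Agent.W46.HD Pool.Agent.W46.HM Pool.Agent.Y244.HM
  Pool.Agent.W597.HD

theorem core3 : S_CORE3 := by
  have hBOX := Pool.Agent.Y710.HK.t_box
  have hF9 := Pool.Agent.Y290.HK.t_f9 hBOX
  have hW := Pool.Agent.Y899.HK.t_w
  exact t_core3 Pool.Agent.Y624.HK.t_cfgu Pool.Agent.Y721.HK.t_fa (Pool.Agent.Y37.HK.t_fb hBOX)
    (Pool.Agent.Y657.HK3.t_f3 hBOX) (Pool.Agent.Y141.HK.t_f4 hBOX) (Pool.Agent.Y290.HK.t_f6 hBOX)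
    (Pool.Agent.Y971.HK.t_f8 hBOX) hF9
    (Pool.Agent.Y297HK.t_fcA Pool.Agent.Y899.HK.t_cord Pool.Agent.Y484.HK.t_plc)
    (Pool.Agent.Y297HK.t_fcB Pool.Agent.Y899.HK.t_cord Pool.Agent.Y484.HK.t_plc) hW
    (Pool.Agent.Y705.HK.t_a1 hW) Pool.Agent.Y888.HK.t_a2 Pool.Agent.Y888.HK.t_k1
    (Pool.Agent.Y705.HK.t_b1 hW) Pool.Agent.Y638.HK.t_b2 Pool.Agent.Y638.HK.t_c1'
    (Pool.Agent.Y275.HK.t_fw hBOX hF9)

theorem ext : S_EXT :=
  t_ext Pool.Agent.Y655.HKTWO.t_two Pool.Agent.Y941.HK.t_lh Pool.Agent.Y925.HK.Ld.t_ld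
    Pool.Agent.Y86.HK.t_sumh Pool.Agent.Y86.HK.t_sumd

/-- The oracle with loss `n ^ ε`. -/
theorem allE {d : ℕ} (hd : 14 ≤ d) {c : ℝ} (hc1 : 1 < c)
    (hc : 0 < d * (c ^ 3 - 4 * c + 2) + c * (3 * c - 1 - c ^ 2)) : AllE d c :=
  iter core3 ext Pool.Agent.Y210.HK.t_start hd hc1 hc

end Pool.Agent.Y254HK
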