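import Pool.Agent.Y254.HK.Ext

/-!
# The core inequality: assembly
-/

set_option autoImplicit false
set_option linter.unusedVariables false

open Finset
open scoped Classical

namespace Pool.Agent.Y254HK
open Pool.Agent.W904.AK Pool.Agent.W46.HD Pool.Agent.W46.HM Pool.Agent.Y244.HM
  Pool.Agent.W597.HD

/-- The algebra of the core, simple form. -/
theorem core_alg {a h N L wT wG HX HW Q b d e : ℝ} (hb : 1 < b) (hd : 0 ≤ d) (he : 0 ≤ e)
    (hA : 2 * a - h + 3 * N + (b - 1) * HX ≤ b * Q + 5 * L + (b + d + 1) * wT + e)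
    (hB : 3 * a - 2 * h + 4 * N + (b - 1) * HW ≤
      b * (h + N + HX) + N + 9 * L - wT + (b + d) * wG + e)
    (hC : Q + a - 2 * h - N - 4 * L + wT + wG ≤ HW + e)
    (hQ : Q ≤ 2 * N + 2 * h) (h1 : wT ≤ 2 * L + e) (h2 : wT + wG ≤ 3 * L + e) :
    (b ^ 2 + 3 * b - 2) * a + (5 * b - 2 - 2 * b ^ 2) * N ≤
      (3 * b ^ 2 + 2 * b - 2) * h + (4 * b ^ 2 + 11 * b - 6 + (3 * b - 1) * d) * L +
        10 * (b + 1) ^ 2 * (d + 1) * e := by
  have mA := mul_le_mul_of_nonneg_left hA (by linarith : 0 ≤ b)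
  have mB := mul_le_mul_of_nonneg_left hB (by linarith : 0 ≤ b - 1)
  have mC := mul_le_mul_of_nonneg_left hC (sq_nonneg (b - 1))
  have mQ := mul_le_mul_of_nonneg_left hQ (by linarith : 0 ≤ 2 * b - 1)
  have c2 : 0 ≤ (b - 1) * (d + 1) := mul_nonneg (by linarith) (by linarith)
  have c1 : 0 ≤ b * d + 2 * b - (b - 1) * (d + 1) := by nlinarith
  have m1 := mul_le_mul_of_nonneg_left h1 c1
  have m2 := mul_le_mul_of_nonneg_left h2 c2
  have v1 : 0 ≤ b * e := mul_nonneg (by linarith) he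
  have v2 : 0 ≤ b ^ 2 * e := mul_nonneg (by positivity) he
  have v3 : 0 ≤ d * e := mul_nonneg hd he
  have v4 : 0 ≤ b * d * e := mul_nonneg (mul_nonneg (by linarith) hd) he
  have v5 : 0 ≤ b ^ 2 * d * e := mul_nonneg (mul_nonneg (by positivity) hd) he
  nlinarith

theorem comb_a {a h N L wT HX Q θ r b d x y : ℝ} (hb : 1 < b) (hθ : 0 ≤ θ)
    (h1 : 2 * a - h + 3 * N + (b - 1) * HX ≤ b * (Q - θ) + r + 5 * L + (b + d - 1) * wT + x)
    (h2 : r ≤ θ + 2 * wT + y) :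
    2 * a - h + 3 * N + (b - 1) * HX ≤ b * Q + 5 * L + (b + d + 1) * wT + (x + y) := by
  have h3 := mul_nonneg (by linarith : 0 ≤ b - 1) hθ
  have e1 : b * (Q - θ) = b * Q - (b - 1) * θ - θ := by ring
  have e2 : (b + d + 1) * wT = (b + d - 1) * wT + 2 * wT := by ring
  rw [e1] at h1
  rw [e2]
  linarith

theorem comb_b {a h N L wT wG HX HW ζ r κ b d x y z : ℝ} (hb : 1 < b) (hζ : 0 ≤ ζ)
    (h1 : 3 * a - 2 * h + 4 * N + (b - 1) * HW ≤
      b * (h + N + HX - ζ) + r + κ + 8 * L - wT + (b + d - 1) * wG + x)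
    (h2 : r ≤ ζ + N + wG + y) (h3 : κ ≤ L + z) :
    3 * a - 2 * h + 4 * N + (b - 1) * HW ≤
      b * (h + N + HX) + N + 9 * L - wT + (b + d) * wG + (x + y + z) := by
  have h4 := mul_nonneg (by linarith : 0 ≤ b - 1) hζ
  have e1 : b * (h + N + HX - ζ) = b * (h + N + HX) - (b - 1) * ζ - ζ := by ring
  have e2 : (b + d) * wG = (b + d - 1) * wG + wG := by ring
  rw [e1] at h1
  rw [e2]
  linarith

theorem fin_err {Kc ε N CG C0 S : ℝ} (hK : 0 ≤ Kc) (hε : 0 < ε) (hN : 0 ≤ N) (hS : 0 ≤ S)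
    (hC0 : 0 ≤ C0) :
    Kc * ((ε / (2 * (Kc + 1)) * N + CG * (1 + S)) + (ε / (2 * (Kc + 1)) * N + C0)) ≤
      ε * N + Kc * (CG + C0) * (1 + S) := by
  have h1 : Kc * (ε / (2 * (Kc + 1)) * N + ε / (2 * (Kc + 1)) * N) = (Kc / (Kc + 1)) * (ε * N) := by
    field_simp
    ring
  have h2 : Kc / (Kc + 1) ≤ 1 := by
    rw [div_le_one (by linarith)]; linarith
  have h3 : 0 ≤ ε * N := by positivity
  have h4 : (Kc / (Kc + 1)) * (ε * N) ≤ 1 * (ε * N) := mul_le_mul_of_nonneg_right h2 h3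
  have h5 : 0 ≤ Kc * C0 * S := by positivity
  have e : Kc * ((ε / (2 * (Kc + 1)) * N + CG * (1 + S)) + (ε / (2 * (Kc + 1)) * N + C0)) =
      Kc * (ε / (2 * (Kc + 1)) * N + ε / (2 * (Kc + 1)) * N) + Kc * CG * (1 + S) + Kc * C0 := by
    ring
  rw [e, h1]
  have e2 : Kc * (CG + C0) * (1 + S) = Kc * CG * (1 + S) + Kc * C0 + Kc * C0 * S := by ring
  rw [e2]
  linarith

theorem SepM_nonneg {Ω : Type} [Fintype Ω] {n : ℕ} {p : Ω × Fin n → ℝ} {S : ℝ} (hp : IsLaw p)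
    (h : SepM p S) : 0 ≤ S := by
  obtain ⟨s, h1, h2⟩ := h
  refine le_trans (Finset.sum_nonneg fun ω _ => ?_) h2
  refine le_trans (Finset.sum_nonneg fun j _ => ?_) (h1 ω 0)
  exact mul_nonneg (hp.nonneg _) (Real.log_nonneg (le_max_left _ _))

section mono

variable {Ω : Type} {d n : ℕ} {A D : Ω → Fin d → ℝ} {Θ : Type} [Fintype Θ] {q : Θ → ℝ}
  {l1 l2 l3 : Θ → Ω} {s0 s1 t t' τ v : Θ → Fin n} {E E' : ℝ}

theorem FA.mono (h : FA A D q l1 l2 l3 s0 s1 t t' τ v E) (hE : E ≤ E') :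
    FA A D q l1 l2 l3 s0 s1 t t' τ v E' := by
  constructor
  · exact h.sz.trans (by linarith)
  · exact h.sg.trans (by linarith)
  · exact h.sy.trans (by linarith)
  · exact h.sm.trans (by linarith)
  · exact h.g6.trans (by linarith)
  · exact h.g5.trans (by linarith)
  · exact h.g3.trans (by linarith)
  · exact h.c3.trans (by linarith)
  · exact h.c1.trans (by linarith)

theorem FB.mono (h : FB A D q l1 l3 s0 s1 t t' E) (hE : E ≤ E') :
    FB A D q l1 l3 s0 s1 t t' E' := by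
  constructor
  · exact h.d1.trans (by linarith)
  · exact h.d5.trans (by linarith)

end mono

theorem geo_of (hFA : S_FA) (hFB : S_FB) (hF3 : S_F3) (hF4 : S_F4) (hF6 : S_F6) (hF8 : S_F8)
    (hF9 : S_F9) (hcA : S_FcA) (hcB : S_FcB) : ∀ (d : ℕ) (ε : ℝ), 0 < ε → ∃ C : ℝ, 0 ≤ C ∧
    ∀ (n : ℕ) (Ω : Type) [Fintype Ω]
    (A D : Ω → Fin d → ℝ), IsFam n D → ∀ (p : Ω × Fin n → ℝ) (S : ℝ), IsLaw p → 0 ≤ S →
    ∀ (Θ : Type) (iΘ : Fintype Θ) (q : Θ → ℝ) (l1 l2 l3 : Θ → Ω) (s0 s1 t t' τ v : Θ → Fin n),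
    CfgU A D p S q l1 l2 l3 s0 s1 t t' τ v →
    Geo A D q l1 l2 l3 s0 s1 t t' τ v (ε * Real.log n + C * (1 + S)) := by
  intro d ε hε
  obtain ⟨C1, h1, hFA⟩ := hFA d ε hε
  obtain ⟨C2, h2, hFB⟩ := hFB d ε hε
  obtain ⟨C3, h3, hF3⟩ := hF3 d ε hε
  obtain ⟨C4, h4, hF4⟩ := hF4 d ε hε
  obtain ⟨C5, h5, hF6⟩ := hF6 d ε hε
  obtain ⟨C6, h6, hF8⟩ := hF8 d ε hε
  obtain ⟨C7, h7, hF9⟩ := hF9 d ε hε
  obtain ⟨C8, h8, hcA⟩ := hcA d ε hε
  obtain ⟨C9, h9, hcB⟩ := hcB d ε hε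
  refine ⟨C1 + C2 + C3 + C4 + C5 + C6 + C7 + C8 + C9, by positivity, ?_⟩
  intro n Ω _ A D hfam p S hp hS Θ iΘ q l1 l2 l3 s0 s1 t t' τ v hc
  have key : ∀ C : ℝ, C ≤ C1 + C2 + C3 + C4 + C5 + C6 + C7 + C8 + C9 →
      ε * Real.log n + C * (1 + S) ≤
      ε * Real.log n + (C1 + C2 + C3 + C4 + C5 + C6 + C7 + C8 + C9) * (1 + S) := by
    intro C hC
    have := mul_le_mul_of_nonneg_right hC (by linarith : 0 ≤ 1 + S)
    linarith
  constructor
  · exact (hFA n Ω A D hfam p S hp Θ iΘ q l1 l2 l3 s0 s1 t t' τ v hc).mono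
      (key C1 (by linarith))
  · exact (hFB n Ω A D hfam p S hp Θ iΘ q l1 l2 l3 s0 s1 t t' τ v hc).mono
      (key C2 (by linarith))
  · have h := hF3 n Ω A D hfam p S hp Θ iΘ q l1 l2 l3 s0 s1 t t' τ v hc
    have k := key C3 (by linarith)
    unfold F3 at h ⊢
    linarith
  · have h := hF4 n Ω A D hfam p S hp Θ iΘ q l1 l2 l3 s0 s1 t t' τ v hc
    have k := key C4 (by linarith)
    unfold F4 at h ⊢
    linarith
  · have h := hF6 n Ω A D hfam p S hp Θ iΘ q l1 l2 l3 s0 s1 t t' τ v hc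
    have k := key C5 (by linarith)
    unfold F6 at h ⊢
    linarith
  · have h := hF8 n Ω A D hfam p S hp Θ iΘ q l1 l2 l3 s0 s1 t t' τ v hc
    have k := key C6 (by linarith)
    unfold F8 at h ⊢
    linarith
  · have h := hF9 n Ω A D hfam p S hp Θ iΘ q l1 l2 l3 s0 s1 t t' τ v hc
    have k := key C7 (by linarith)
    unfold F9 at h ⊢
    linarith
  · have h := hcA n Ω A D hfam p S hp Θ iΘ q l1 l2 l3 s0 s1 t t' τ v hc
    have k := key C8 (by linarith)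
    unfold FcA at h ⊢
    linarith
  · have h := hcB n Ω A D hfam p S hp Θ iΘ q l1 l2 l3 s0 s1 t t' τ v hc
    have k := key C9 (by linarith)
    unfold FcB at h ⊢
    linarith

/-- The core inequality, simple form. -/
theorem t_core (hCFG : S_CFGU) (hFA : S_FA) (hFB : S_FB) (hF3 : S_F3) (hF4 : S_F4) (hF6 : S_F6)
    (hF8 : S_F8) (hF9 : S_F9) (hcA : S_FcA) (hcB : S_FcB) (hW : S_W) (hA1 : S_A1) (hA2 : S_A2)
    (hK1 : S_K1) (hB1 : S_B1) (hB2 : S_B2) (hC1 : S_C1) : S_CORE := by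
  intro d b hb hb2 hE ε hε
  obtain ⟨cW, pW, hW⟩ := hW d b hb
  obtain ⟨cA1, pA1, hA1⟩ := hA1 d b hb
  obtain ⟨cA2, pA2, hA2⟩ := hA2 d b hb
  obtain ⟨cK1, pK1, hK1⟩ := hK1 d b hb
  obtain ⟨cB1, pB1, hB1⟩ := hB1 d b hb
  obtain ⟨cB2, pB2, hB2⟩ := hB2 d b hb
  obtain ⟨cC1, pC1, hC1⟩ := hC1 d b hb
  set Ca : ℝ := cW + cA1 + cA2 + cK1 + cB1 + cB2 + cC1 with hCa
  have hCa0 : 0 ≤ Ca := by positivity
  set Kc : ℝ := 10 * (b + 1) ^ 2 * (d + 1) * Ca with hKc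
  have hKc0 : 0 ≤ Kc := by positivity
  set ε0 : ℝ := ε / (2 * (Kc + 1)) with hε0
  have hε00 : 0 < ε0 := by positivity
  obtain ⟨CG, hCG, hG⟩ := geo_of hFA hFB hF3 hF4 hF6 hF8 hF9 hcA hcB d ε0 hε00
  obtain ⟨C0, hC0, hO⟩ := hE ε0 hε00
  refine ⟨Kc * (CG + C0), by positivity, ?_⟩
  intro n Ω _ A D hfam p hp S hsep hang
  have hS : 0 ≤ S := SepM_nonneg hp hsep
  have hn : 1 ≤ n := hfam.pos
  have hN : 0 ≤ Real.log n := Real.log_nonneg (by exact_mod_cast hn)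
  obtain ⟨Θ, iΘ, q, l1, l2, l3, s0, s1, t, t', τ, v, hc⟩ := hCFG Ω d n A D p S hn hp hsep hang
  have hgeo := hG n Ω A D hfam p S hp hS Θ iΘ q l1 l2 l3 s0 s1 t t' τ v hc
  have hor := hO n Ω A D hfam
  set E : ℝ := ε0 * Real.log n + CG * (1 + S) with hEdef
  set F : ℝ := ε0 * Real.log n + C0 with hFdef
  have hE0 : 0 ≤ E := by positivity
  have hF0 : 0 ≤ F := by positivity
  have hq := hc.law
  obtain ⟨w1, w2, w3, w4, -, -⟩ := hW n Ω _ A D hfam p S E F hp Θ iΘ q l1 l2 l3 s0 s1 t t' τ v hc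
    hgeo hE0 hF0 hor
  have a1 := hA1 n Ω _ A D hfam p S E F hp Θ iΘ q l1 l2 l3 s0 s1 t t' τ v hc hgeo hE0 hF0 hor
  have a2 := hA2 n Ω _ A D hfam p S E F hp Θ iΘ q l1 l2 l3 s0 s1 t t' τ v hc hgeo hE0 hF0 hor
  have k1 := hK1 n Ω _ A D hfam p S E F hp Θ iΘ q l1 l2 l3 s0 s1 t t' τ v hc hgeo hE0 hF0 hor
  have b1 := hB1 n Ω _ A D hfam p S E F hp Θ iΘ q l1 l2 l3 s0 s1 t t' τ v hc hgeo hE0 hF0 hor
  have b2 := hB2 n Ω _ A D hfam p S E F hp Θ iΘ q l1 l2 l3 s0 s1 t t' τ v hc hgeo hE0 hF0 hor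
  have c1 := hC1 n Ω _ A D hfam p S E F hp Θ iΘ q l1 l2 l3 s0 s1 t t' τ v hc hgeo hE0 hF0 hor
  -- nonnegativity of the two brackets
  have th : 0 ≤ H q (fun z => ((cell A D (t z) (l1 z), XX A D l1 l3 s0 s1 t t' z, t z), t' z)) -
      H q (fun z => (cell A D (t z) (l1 z), XX A D l1 l3 s0 s1 t t' z, t z)) := by
    have := H_mono hq (Det.fst q (fun z => (cell A D (t z) (l1 z), XX A D l1 l3 s0 s1 t t' z, t z))
      t')
    linarith
  have ze : 0 ≤ H q (fun z => (l2 z, WW A D l2 l3 s0 s1 t t' τ v z, τ z,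
      (XX A D l1 l3 s0 s1 t t' z).1)) -
      H q (fun z => (l2 z, WW A D l2 l3 s0 s1 t t' τ v z, τ z)) := by
    have h := H_mono hq (f := fun z => (l2 z, WW A D l2 l3 s0 s1 t t' τ v z, τ z,
      (XX A D l1 l3 s0 s1 t t' z).1)) (g := fun z => (l2 z, WW A D l2 l3 s0 s1 t t' τ v z, τ z))
      (by intro x y _ _ h; simp only [Prod.mk.injEq] at h ⊢; tauto)
    linarith
  have hQ : H q (fun z => (t z, t' z, cell A D (t z) (l1 z), cell A D (t' z) (l3 z))) ≤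
      2 * Real.log n + 2 * hh A D p := by
    have e1 := subadd hq (f := fun z => (t z, cell A D (t z) (l1 z)))
      (g := fun z => (t' z, cell A D (t' z) (l3 z)))
      (k := fun z => (t z, t' z, cell A D (t z) (l1 z), cell A D (t' z) (l3 z))) (by
        intro x y _ _ h; simp only [Prod.mk.injEq] at h ⊢; tauto)
    have e2 := hc.ht
    have e3 := hc.ht'
    have e4 := H_height hq t
    have e5 := H_height hq t'
    linarith
  set e : ℝ := Ca * (E + F) with he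
  have hEF : 0 ≤ E + F := by linarith
  have he0 : 0 ≤ e := by positivity
  have hle : ∀ c : ℝ, c ≤ Ca → c * (E + F) ≤ e := fun c hc' => mul_le_mul_of_nonneg_right hc' hEF
  have m1 : cA1 * (E + F) + cA2 * (E + F) ≤ e := by
    rw [← add_mul]; exact hle _ (by linarith)
  have m2 : cB1 * (E + F) + cB2 * (E + F) + cK1 * (E + F) ≤ e := by
    rw [← add_mul, ← add_mul]; exact hle _ (by linarith)
  have m3 : cC1 * (E + F) ≤ e := hle _ (by linarith)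
  have m4 : cW * (E + F) ≤ e := hle _ (by linarith)
  have hd : (0 : ℝ) ≤ d := Nat.cast_nonneg d
  have A := comb_a hb th a1 a2
  have B := comb_b hb ze b1 b2 (sub_le_iff_le_add'.mpr (k1.trans_eq (add_assoc _ _ _)))
  have fin := core_alg hb hd he0 (A.trans (by linarith)) (B.trans (by linarith))
    (c1.trans (by linarith)) hQ (w3.trans (by linarith)) (w4.trans (by linarith))
  refine fin.trans ?_
  have h1 : 10 * (b + 1) ^ 2 * (d + 1) * e = Kc * (E + F) := by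
    rw [he, hKc]; ring
  rw [h1]
  have h2 := fin_err (CG := CG) hKc0 hε hN hS hC0
  linarith

end Pool.Agent.Y254HK
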