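import Pool.Agent.Y254.HK.StmG
import Pool.Agent.Y254.HK.Core2

/-!
# The core inequality with a general coefficient of the deficiency: assembly
-/

set_option autoImplicit false
set_option linter.unusedVariables false

open Finset
open scoped Classical

namespace Pool.Agent.Y254HK
open Pool.Agent.W904.AK Pool.Agent.W46.HD Pool.Agent.W46.HM Pool.Agent.Y244.HM
  Pool.Agent.W597.HD

/-- The core inequality, full form. -/
theorem t_coreg (hCFG : S_CFGU) (hFA : S_FA) (hFB : S_FB) (hF3 : S_F3) (hF4 : S_F4) (hF6 : S_F6)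
    (hF8 : S_F8) (hF9 : S_F9) (hcA : S_FcA) (hcB : S_FcB) (hW : S_WG) (hA1 : S_A1G) (hA2 : S_A2G)
    (hK1 : S_K1G) (hB1 : S_B1G) (hB2 : S_B2G) (hC1 : S_C1G) (hFW : S_FW) : S_COREG := by
  intro d b G hb hb2 hG0 hE ε hε
  obtain ⟨cW, pW, hW⟩ := hW d b G hb hG0
  obtain ⟨cA1, pA1, hA1⟩ := hA1 d b G hb hG0
  obtain ⟨cA2, pA2, hA2⟩ := hA2 d b G hb hG0
  obtain ⟨cK1, pK1, hK1⟩ := hK1 d b G hb hG0
  obtain ⟨cB1, pB1, hB1⟩ := hB1 d b G hb hG0
  obtain ⟨cB2, pB2, hB2⟩ := hB2 d b G hb hG0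
  obtain ⟨cC1, pC1, hC1⟩ := hC1 d b G hb hG0
  set Ca : ℝ := cW + cA1 + cA2 + cK1 + cB1 + cB2 + cC1 + 1 with hCa
  have hCa0 : 0 ≤ Ca := by positivity
  set Kc : ℝ := 10 * (b + 1) ^ 2 * (G + 1) * Ca with hKc
  have hKc0 : 0 ≤ Kc := by positivity
  set ε0 : ℝ := ε / (2 * (Kc + 1)) with hε0
  have hε00 : 0 < ε0 := by positivity
  obtain ⟨CG', hCG', hG⟩ := geo_of hFA hFB hF3 hF4 hF6 hF8 hF9 hcA hcB d ε0 hε00
  obtain ⟨CW, hCW, hFW⟩ := hFW d ε0 hε00
  set CG : ℝ := CG' + CW with hCGdef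
  have hCG : 0 ≤ CG := by positivity
  obtain ⟨C0, hC0, hO⟩ := hE ε0 hε00
  refine ⟨Kc * (CG + C0), by positivity, ?_⟩
  intro n Ω _ A D hfam p hp S hsep hang
  have hS : 0 ≤ S := SepM_nonneg hp hsep
  have hn : 1 ≤ n := hfam.pos
  have hN : 0 ≤ Real.log n := Real.log_nonneg (by exact_mod_cast hn)
  obtain ⟨Θ, iΘ, q, l1, l2, l3, s0, s1, t, t', τ, v, hc⟩ := hCFG Ω d n A D p S hn hp hsep hang
  have hgeo' := hG n Ω A D hfam p S hp hS Θ iΘ q l1 l2 l3 s0 s1 t t' τ v hc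
  have hgeo : Geo A D q l1 l2 l3 s0 s1 t t' τ v (ε0 * Real.log n + CG * (1 + S)) :=
    hgeo'.mono (by
      have : 0 ≤ CW * (1 + S) := by positivity
      have e : CG * (1 + S) = CG' * (1 + S) + CW * (1 + S) := by rw [hCGdef]; ring
      linarith)
  have fw' := hFW n Ω A D hfam p S hp Θ iΘ q l1 l2 l3 s0 s1 t t' τ v hc
  have hor := hO n Ω A D hfam
  set E : ℝ := ε0 * Real.log n + CG * (1 + S) with hEdef
  set F : ℝ := ε0 * Real.log n + C0 with hFdef
  have hE0 : 0 ≤ E := by positivity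
  have fw : H q (fun z => (l2 z, WW A D l2 l3 s0 s1 t t' τ v z, v z, s1 z)) -
      H q (fun z => (l2 z, WW A D l2 l3 s0 s1 t t' τ v z)) ≤
    2 * (H q (fun z => (l2 z, WW A D l2 l3 s0 s1 t t' τ v z, τ z,
        (XX A D l1 l3 s0 s1 t t' z).1)) -
      H q (fun z => (l2 z, WW A D l2 l3 s0 s1 t t' τ v z, τ z))) +
    4 * wG q l1 l2 l3 s0 s1 t t' τ v + E := by
    unfold FW at fw'
    have : 0 ≤ CG' * (1 + S) := by positivity
    have e : CG * (1 + S) = CG' * (1 + S) + CW * (1 + S) := by rw [hCGdef]; ring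
    linarith
  have hF0 : 0 ≤ F := by positivity
  have hq := hc.law
  obtain ⟨w1, w2, w3, w4, -, -⟩ := hW n Ω _ A D hfam p S E F hp Θ iΘ q l1 l2 l3 s0 s1 t t' τ v hc
    hgeo hE0 hF0 hor
  have a1 := hA1 n Ω _ A D hfam p S E F hp Θ iΘ q l1 l2 l3 s0 s1 t t' τ v hc hgeo hE0 hF0 hor
  have a2 := hA2 n Ω _ A D hfam p S E F hp Θ iΘ q l1 l2 l3 s0 s1 t t' τ v hc hgeo hE0 hF0 hor
  have k1 := hK1 n Ω _ A D hfam p S E F hp Θ iΘ q l1 l2 l3 s0 s1 t t' τ v hc hgeo hE0 hF0 hor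
  have b1 := hB1 n Ω _ A D hfam p S E F hp Θ iΘ q l1 l2 l3 s0 s1 t t' τ v hc hgeo hE0 hF0 hor
  have b2 := hB2 n Ω _ A D hfam p S E F hp Θ iΘ q l1 l2 l3 s0 s1 t t' τ v hc hgeo hE0 hF0 hor
  have c1 := hC1 n Ω _ A D hfam p S E F hp Θ iΘ q l1 l2 l3 s0 s1 t t' τ v hc hgeo hE0 hF0 hor
  -- nonnegativity of the two brackets
  have th : 0 ≤ H q (fun z => ((cell A D (t z) (l1 z), XX A D l1 l3 s0 s1 t t' z, t z), t' z)) -
      H q (fun z => (cell A D (t z) (l1 z), XX A D l1 l3 s0 s1 t t' z, t z)) := by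
    have := H_mono hq (Det.fst q (fun z => (cell A D (t z) (l1 z), XX A D l1 l3 s0 s1 t t' z, t z))
      t')
    linarith
  have ze : 0 ≤ H q (fun z => (l2 z, WW A D l2 l3 s0 s1 t t' τ v z, τ z,
      (XX A D l1 l3 s0 s1 t t' z).1)) -
      H q (fun z => (l2 z, WW A D l2 l3 s0 s1 t t' τ v z, τ z)) := by
    have h := H_mono hq (f := fun z => (l2 z, WW A D l2 l3 s0 s1 t t' τ v z, τ z,
      (XX A D l1 l3 s0 s1 t t' z).1)) (g := fun z => (l2 z, WW A D l2 l3 s0 s1 t t' τ v z, τ z))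
      (by intro x y _ _ h; simp only [Prod.mk.injEq] at h ⊢; tauto)
    linarith
  have hQ : H q (fun z => (t z, t' z, cell A D (t z) (l1 z), cell A D (t' z) (l3 z))) ≤
      2 * Real.log n + 2 * hh A D p := by
    have e1 := subadd hq (f := fun z => (t z, cell A D (t z) (l1 z)))
      (g := fun z => (t' z, cell A D (t' z) (l3 z)))
      (k := fun z => (t z, t' z, cell A D (t z) (l1 z), cell A D (t' z) (l3 z))) (by
        intro x y _ _ h; simp only [Prod.mk.injEq] at h ⊢; tauto)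
    have e2 := hc.ht
    have e3 := hc.ht'
    have e4 := H_height hq t
    have e5 := H_height hq t'
    linarith
  set e : ℝ := Ca * (E + F) with he
  have hEF : 0 ≤ E + F := by linarith
  have he0 : 0 ≤ e := by positivity
  have hle : ∀ c : ℝ, c ≤ Ca → c * (E + F) ≤ e := fun c hc' => mul_le_mul_of_nonneg_right hc' hEF
  have m1 : cA1 * (E + F) + cA2 * (E + F) ≤ e := by
    rw [← add_mul]; exact hle _ (by linarith)
  have m2 : cB1 * (E + F) + cB2 * (E + F) + E + cK1 * (E + F) ≤ e := by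
    have h1 : (cB1 + cB2 + 1 + cK1) * (E + F) ≤ e := hle _ (by linarith)
    have h2 : (cB1 + cB2 + 1 + cK1) * (E + F) =
      cB1 * (E + F) + cB2 * (E + F) + (E + F) + cK1 * (E + F) := by ring
    linarith
  have m3 : cC1 * (E + F) ≤ e := hle _ (by linarith)
  have m4 : cW * (E + F) ≤ e := hle _ (by linarith)
  have A := comb_a hb th a1 a2
  have B := comb_b2 hb hb2 (mul_nonneg pB2 hEF) hE0 b1 b2 fw
    (sub_le_iff_le_add'.mpr (k1.trans_eq (add_assoc _ _ _)))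
  have fin := core_alg2 hb hb2 hG0 he0 (A.trans (by linarith)) (B.trans (by linarith))
    (c1.trans (by linarith)) hQ (w3.trans (by linarith)) (w4.trans (by linarith))
  refine fin.trans ?_
  have h1 : 10 * (b + 1) ^ 2 * (G + 1) * e = Kc * (E + F) := by
    rw [he, hKc]; ring
  rw [h1]
  have h2 := fin_err (CG := CG) hKc0 hε hN hS hC0
  linarith

end Pool.Agent.Y254HK
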