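import Pool.Agent.Y254.HK.Stm

/-!
# From broad, two-ends laws to all laws
-/

set_option autoImplicit false
set_option linter.unusedVariables false

open Finset
open scoped Classical

namespace Pool.Agent.Y254HK
open Pool.Agent.W904.AK Pool.Agent.W46.HD Pool.Agent.W46.HM Pool.Agent.Y244.HM
  Pool.Agent.W597.HD

theorem rho_bound {ρ η x C' G2 ε : ℝ} (hη : 0 < η) (hG : 0 < G2)
    (h : ρ * (ε * x - C') ≤ G2 * (ρ * (-Real.log ρ) + ρ) + η) :
    ρ ≤ η + Real.exp ((C' + G2 + 1) / G2) * Real.exp (-(ε / G2) * x) := by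
  rcases le_or_gt ρ η with h1 | h1
  · have : 0 ≤ Real.exp ((C' + G2 + 1) / G2) * Real.exp (-(ε / G2) * x) := by positivity
    linarith
  · have hρ : 0 < ρ := hη.trans h1
    have h2 : ε * x - C' ≤ G2 * (-Real.log ρ + 1) + 1 := by
      have h3 : ρ * (ε * x - C') ≤ ρ * (G2 * (-Real.log ρ + 1) + 1) := by nlinarith
      exact le_of_mul_le_mul_left h3 hρ
    have h4 : Real.log ρ ≤ (C' + G2 + 1) / G2 + -(ε / G2) * x := by
      have : G2 * Real.log ρ ≤ C' + G2 + 1 - ε * x := by linarith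
      have h5 : Real.log ρ ≤ (C' + G2 + 1 - ε * x) / G2 := by
        rw [le_div_iff₀ hG]; linarith
      refine h5.trans (le_of_eq ?_)
      field_simp
      ring
    have h6 : ρ ≤ Real.exp ((C' + G2 + 1) / G2) * Real.exp (-(ε / G2) * x) := by
      rw [← Real.exp_add, ← Real.log_le_iff_le_exp hρ]
      exact h4
    linarith

/-- entropy of a two-valued variable -/
theorem H_bool {Θ : Type} [Fintype Θ] {q : Θ → ℝ} (hq : IsLaw q) (U : Θ → Bool) :
    H q U ≤ im q U true * (-Real.log (im q U true)) + im q U true := by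
  have h1 : H q U = im q U true * (-Real.log (im q U true)) +
      im q U false * (-Real.log (im q U false)) := by
    unfold H
    have : ∀ x, q x * -Real.log (im q U (U x)) =
        (if U x = true then q x else 0) * (-Real.log (im q U true)) +
        (if U x = false then q x else 0) * (-Real.log (im q U false)) := by
      intro x
      cases hU : U x
      · simp
      · simp
    rw [Finset.sum_congr rfl fun x _ => this x, Finset.sum_add_distrib, ← Finset.sum_mul,
      ← Finset.sum_mul]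
    have e : ∀ u : Bool, (∑ x, if U x = u then q x else 0) = im q U u := by
      intro u
      unfold im
      refine Finset.sum_congr rfl fun x _ => ?_
      congr
    rw [e, e]
  have h2 : im q U true + im q U false = 1 := by
    have h3 : ∑ x, q x = 1 := hq.total
    rw [← h3]
    unfold im
    rw [← Finset.sum_add_distrib]
    refine Finset.sum_congr rfl fun x _ => ?_
    cases hU : U x <;> simp
  have h0 := im_nonneg hq U false
  rw [h1]
  have h4 : im q U false * (-Real.log (im q U false)) ≤ im q U true := by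
    rcases h0.eq_or_lt with h | h
    · rw [← h, zero_mul]
      exact im_nonneg hq U true
    · have h5 := Real.one_sub_inv_le_log_of_pos h
      have h6 : im q U false * (1 - (im q U false)⁻¹) ≤ im q U false * Real.log (im q U false) :=
        mul_le_mul_of_nonneg_left h5 h.le
      have h7 : im q U false * (1 - (im q U false)⁻¹) = im q U false - 1 := by
        field_simp
      linarith
  linarith

section basics

variable {Ω : Type} [Fintype Ω] {d n : ℕ} {A D : Ω → Fin d → ℝ} {p : Ω × Fin n → ℝ}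

theorem hh_nonneg (hp : IsLaw p) : 0 ≤ hh A D p := by
  unfold hh
  have := H_mono hp (f := fun z : Ω × Fin n => (z.2, cell A D z.2 z.1)) (g := Prod.snd)
    (Det.comp p _ Prod.fst)
  linarith

theorem mi_nonneg (hp : IsLaw p) : 0 ≤ mi p := by
  unfold mi
  have := subadd hp (f := (Prod.fst : Ω × Fin n → Ω)) (g := Prod.snd) (k := id)
    (fun x y _ _ h => h)
  linarith

theorem lam_nonneg (hn : 1 ≤ n) (hp : IsLaw p) : 0 ≤ lam p :=
  (Pool.Agent.W976.HD.PSI Ω n p hn hp).1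

theorem aa_le (hfam : IsFam n D) : ∀ (_ : IsLaw p), aa p ≤ d * (1 + Real.log n) := by
  intro hp
  have h1 := Pool.Agent.W975.HD.G0 d n Ω D hfam
  have h2 := H_le_log_card hp (Prod.fst : Ω × Fin n → Ω) Finset.univ fun x _ => Finset.mem_univ _
  rw [Finset.card_univ] at h2
  exact h2.trans h1

theorem Lam_le (hfam : IsFam n D) {b : ℝ} (hb : 0 ≤ b) (hp : IsLaw p) :
    Lam A D b d p ≤ d * (1 + Real.log n) := by
  have h1 := aa_le hfam hp
  have h2 := mul_nonneg hb (hh_nonneg (A := A) (D := D) hp)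
  have h3 := mi_nonneg hp
  have h4 : 0 ≤ (d : ℝ) * lam p := mul_nonneg (Nat.cast_nonneg d) (lam_nonneg hfam.pos hp)
  unfold Lam
  linarith

end basics

/-- The values of the functional at scales at most `n`. -/
def VV (d : ℕ) (b ε : ℝ) (n : ℕ) : Set ℝ := {x | ∃ n' : ℕ, n' ≤ n ∧ ∃ (Ω : Type) (_ : Fintype Ω)
  (A D : Ω → Fin d → ℝ), IsFam n' D ∧ ∃ p : Ω × Fin n' → ℝ, IsLaw p ∧
    x = Lam A D b d p - ε * Real.log n'}

theorem VV_bdd {d : ℕ} {b ε : ℝ} (hb : 0 ≤ b) (hε : 0 ≤ ε) (n : ℕ) (hn : 1 ≤ n) :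
    BddAbove (VV d b ε n) := by
  refine ⟨d * (1 + Real.log n), ?_⟩
  rintro x ⟨n', hn', Ω, _, A, D, hfam, p, hp, rfl⟩
  have h1 := Lam_le hfam (A := A) hb hp
  have h2 : (1 : ℝ) ≤ n' := by exact_mod_cast hfam.pos
  have h3 : Real.log n' ≤ Real.log n := Real.log_le_log (by linarith) (by exact_mod_cast hn')
  have h4 : 0 ≤ ε * Real.log n' := mul_nonneg hε (Real.log_nonneg h2)
  have h5 : (d : ℝ) * (1 + Real.log n') ≤ d * (1 + Real.log n) :=
    mul_le_mul_of_nonneg_left (by linarith) (Nat.cast_nonneg d)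
  linarith

theorem VV_ne {d : ℕ} {b ε : ℝ} (n : ℕ) (hn : 1 ≤ n) : (VV d b ε n).Nonempty := by
  refine ⟨_, 1, hn, Unit, inferInstance, fun _ _ => 0, fun _ _ => 0, ⟨le_rfl, ?_, ?_, ?_⟩,
    fun _ => 1, ⟨?_, ?_⟩, rfl⟩
  · intro ω i; exact le_rfl
  · intro ω i; exact zero_le_one
  · intro ω ω' _; exact Subsingleton.elim _ _
  · intro x; exact zero_le_one
  · simp

/-- The value of the functional on sub-laws. -/
theorem Lam_sup {d : ℕ} {b ε : ℝ} (hb : 0 ≤ b) (hε : 0 ≤ ε) {n n' : ℕ} (hn : 1 ≤ n) (hn' : n' ≤ n)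
    {Ω : Type} [Fintype Ω] {A D : Ω → Fin d → ℝ} (hfam : IsFam n' D) {p : Ω × Fin n' → ℝ}
    (hp : IsLaw p) : Lam A D b d p ≤ sSup (VV d b ε n) + ε * Real.log n' := by
  have h := le_csSup (VV_bdd (d := d) (b := b) (ε := ε) hb hε n hn)
    (⟨n', hn', Ω, inferInstance, A, D, hfam, p, hp, rfl⟩ :
      Lam A D b d p - ε * Real.log n' ∈ VV d b ε n)
  linarith

theorem OrM_of_sup {d : ℕ} {b ε : ℝ} (hb : 0 ≤ b) (hε : 0 ≤ ε) {n n' : ℕ} (hn : 1 ≤ n)
    (hn' : n' ≤ n) {Ω : Type} [Fintype Ω] {A D : Ω → Fin d → ℝ} (hfam : IsFam n' D) :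
    OrM n' A D b d (sSup (VV d b ε n) + ε * Real.log n') := by
  intro p hp
  have h := Lam_sup (A := A) hb hε hn hn' hfam hp
  unfold Lam at h
  linarith

/-- The two-class argument. -/
theorem two_class (hTWO : S_TWO) {d : ℕ} {b ε : ℝ} (hb : 0 ≤ b) (hε : 0 ≤ ε) {n n' : ℕ}
    (hn : 1 ≤ n) (hn' : n' ≤ n) {Ω : Type} [Fintype Ω] {A D : Ω → Fin d → ℝ} (hfam : IsFam n' D)
    {p : Ω × Fin n' → ℝ} (hp : IsLaw p) {η : ℝ} (hη : 0 < η)
    (hmax : sSup (VV d b ε n) - η < Lam A D b d p - ε * Real.log n') (U : Ω × Fin n' → Bool)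
    {C' x : ℝ} (hU : im p U true ≠ 0 → Lam A D b d (cd p U true) ≤
      sSup (VV d b ε n) + ε * (Real.log n' - x) + C') :
    im p U true ≤ η + Real.exp ((C' + (d + 2) + 1) / (d + 2)) *
      Real.exp (-(ε / (d + 2)) * x) := by
  have h1 := hTWO d n' Ω A D b d hb (Nat.cast_nonneg d) p hp U _ _ hU fun h0 =>
    Lam_sup (A := A) (ε := ε) hb hε hn hn' hfam (cd_law hp U h0)
  have h2 : im p U true + im p U false = 1 := by
    have h3 : ∑ x, p x = 1 := hp.total
    rw [← h3]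
    unfold im
    rw [← Finset.sum_add_distrib]
    refine Finset.sum_congr rfl fun x _ => ?_
    cases hU : U x <;> simp
  have h3 := H_bool hp U
  have hd : (0 : ℝ) < (d : ℝ) + 2 := by positivity
  have h4 := mul_le_mul_of_nonneg_left h3 hd.le
  refine rho_bound hη hd ?_
  have h5 : im p U false = 1 - im p U true := by linarith
  rw [h5] at h1
  nlinarith

theorem log_scale {n' k : ℕ} (hk : 2 ^ k ≤ n') (hn : 1 ≤ n') :
    Real.log (((n' + 2 ^ k - 1) / 2 ^ k : ℕ) : ℝ) ≤ Real.log n' - (k * Real.log 2 - Real.log 2) := by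
  have h2 : (0 : ℝ) < 2 ^ k := by positivity
  have h1 : (((n' + 2 ^ k - 1) / 2 ^ k : ℕ) : ℝ) ≤ 2 * n' / 2 ^ k := by
    refine Nat.cast_div_le.trans ?_
    push_cast
    refine div_le_div_of_nonneg_right ?_ h2.le
    have h3 : (n' + 2 ^ k - 1 : ℕ) ≤ 2 * n' := by omega
    have h4 : ((n' + 2 ^ k - 1 : ℕ) : ℝ) ≤ ((2 * n' : ℕ) : ℝ) := by exact_mod_cast h3
    push_cast at h4
    exact h4
  have h5 : 0 < (((n' + 2 ^ k - 1) / 2 ^ k : ℕ) : ℝ) := by
    have : 0 < (n' + 2 ^ k - 1) / 2 ^ k := Nat.div_pos (by omega) (by positivity)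
    exact_mod_cast this
  have hn0 : (0 : ℝ) < n' := by exact_mod_cast (by omega : 0 < n')
  refine (Real.log_le_log h5 h1).trans (le_of_eq ?_)
  rw [Real.log_div (by positivity) (by positivity), Real.log_mul (by norm_num) hn0.ne',
    Real.log_pow]
  ring

/-- a geometric sum -/
theorem geo_sum {x : ℝ} (hx0 : 0 ≤ x) (hx1 : x < 1) (K : ℕ) :
    ∑ k ∈ Finset.range (K + 1), x ^ k ≤ 1 / (1 - x) := by
  have h := Summable.sum_le_tsum (Finset.range (K + 1)) (fun k _ => pow_nonneg hx0 k)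
    (summable_geometric_of_lt_one hx0 hx1)
  rw [tsum_geometric_of_lt_one hx0 hx1] at h
  simpa using h

theorem eta_sum {n : ℕ} (hn : 1 ≤ n) :
    ((Nat.log 2 n + 1 : ℕ) : ℝ) * (1 / (1 + Real.log n)) ≤ 2 := by
  have hn0 : (1 : ℝ) ≤ n := by exact_mod_cast hn
  have h0 : 0 ≤ Real.log n := Real.log_nonneg hn0
  rw [mul_one_div, div_le_iff₀ (by linarith)]
  have h1 : ((2 : ℕ) : ℝ) ^ Nat.log 2 n ≤ n := by
    exact_mod_cast Nat.pow_log_le_self 2 (by omega)
  have h2 := Real.log_le_log (by positivity) h1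
  rw [Real.log_pow] at h2
  have h3 := Real.log_two_gt_d9
  push_cast at h2 ⊢
  nlinarith [(Nat.cast_nonneg (Nat.log 2 n) : (0 : ℝ) ≤ (Nat.log 2 n : ℕ))]

end Pool.Agent.Y254HK
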