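import Pool.Agent.Y254.HK.Core2
import Pool.Agent.Y254.HK.Ext2

/-!
# The iteration
-/

set_option autoImplicit false
set_option linter.unusedVariables false

open Finset
open scoped Classical

namespace Pool.Agent.Y254HK
open Pool.Agent.W904.AK Pool.Agent.W46.HD Pool.Agent.W46.HM Pool.Agent.Y244.HM
  Pool.Agent.W597.HD

section basic

variable {Ω : Type} [Fintype Ω] {d n : ℕ} {A D : Ω → Fin d → ℝ} {p : Ω × Fin n → ℝ}

theorem hh_le_aa (hp : IsLaw p) : hh A D p ≤ aa p := by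
  unfold hh aa
  have h1 := H_mono hp (f := (id : Ω × Fin n → Ω × Fin n))
    (g := fun z : Ω × Fin n => (z.2, cell A D z.2 z.1))
    (by intro x y _ _ h; have h' : x = y := h; rw [h'])
  have h2 := subadd hp (f := (Prod.fst : Ω × Fin n → Ω)) (g := Prod.snd) (k := id)
    (by intro x y _ _ h; simpa [Prod.ext_iff] using h)
  linarith

end basic

theorem AllE.mono {d : ℕ} {b c : ℝ} (hbc : b ≤ c) (h : AllE d b) : AllE d c := by
  intro ε hε
  obtain ⟨C, hC, h⟩ := h ε hε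
  refine ⟨C, hC, ?_⟩
  intro n Ω _ A D hfam p hp
  have h1 := h n Ω A D hfam p hp
  have h2 : b * hh A D p ≤ c * hh A D p := mul_le_mul_of_nonneg_right hbc (hh_nonneg hp)
  linarith

theorem AllE_closed {d : ℕ} {m : ℝ} (h : ∀ c : ℝ, m < c → AllE d c) : AllE d m := by
  intro ε hε
  set η : ℝ := ε / (2 * (d + 1)) with hη
  have hη0 : 0 < η := by positivity
  have hηd : η * d ≤ ε / 2 := by
    have e : η * (d + 1) = ε / 2 := by rw [hη]; field_simp
    nlinarith
  obtain ⟨C, hC, h⟩ := h (m + η) (by linarith) (ε / 2) (by linarith)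
  refine ⟨C + ε / 2, by positivity, ?_⟩
  intro n Ω _ A D hfam p hp
  have h1 := h n Ω A D hfam p hp
  have h2 := hh_le_aa (A := A) (D := D) hp
  have h3 := aa_le hfam hp
  have hN : 0 ≤ Real.log n := Real.log_nonneg (by exact_mod_cast hfam.pos)
  have h4 : η * hh A D p ≤ η * (d * (1 + Real.log n)) :=
    mul_le_mul_of_nonneg_left (h2.trans h3) hη0.le
  have h5 : η * (d * (1 + Real.log n)) = (η * d) * (1 + Real.log n) := by ring
  have h6 : (η * d) * (1 + Real.log n) ≤ (ε / 2) * (1 + Real.log n) :=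
    mul_le_mul_of_nonneg_right hηd (by linarith)
  have h7 : (m + η) * hh A D p = m * hh A D p + η * hh A D p := by ring
  rw [h7] at h1
  linarith

/-- One step of the iteration, from the core inequality. -/
theorem step {d : ℕ} {b Γ K : ℝ} (hd : 1 ≤ d) (hb : 1 < b) (hΓ : 0 ≤ Γ)
    (hK : K ≤ d * (b ^ 2 + 3 * b - 2) + Γ) (h : CoreB d b Γ K) :
    AllB d ((3 * b ^ 2 + 2 * b - 2) / (b ^ 2 + 3 * b - 2 + Γ / d)) := by
  have hd0 : (0 : ℝ) < d := by exact_mod_cast hd
  set M : ℝ := b ^ 2 + 3 * b - 2 with hM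
  set P : ℝ := 3 * b ^ 2 + 2 * b - 2 with hP
  have hM1 : 1 ≤ M := by rw [hM]; nlinarith
  set M' : ℝ := M + Γ / d with hM'
  have hΓd : 0 ≤ Γ / d := by positivity
  have hM'1 : 1 ≤ M' := by rw [hM']; linarith
  have hM'0 : 0 < M' := by linarith
  intro ε hε
  obtain ⟨C, hC, h⟩ := h ε hε
  refine ⟨C + Γ, by positivity, ?_⟩
  intro n Ω _ A D hfam p hp S hsep hang
  have hS : 0 ≤ S := SepM_nonneg hp hsep
  have hN : 0 ≤ Real.log n := Real.log_nonneg (by exact_mod_cast hfam.pos)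
  have h1 := h n Ω A D hfam p hp S hsep hang
  have h2 := aa_le hfam hp
  have h3 : (Γ / d) * aa p ≤ (Γ / d) * (d * (1 + Real.log n)) :=
    mul_le_mul_of_nonneg_left h2 hΓd
  have h4 : (Γ / d) * (d * (1 + Real.log n)) = Γ * (1 + Real.log n) := by
    field_simp
  have hl := lam_nonneg hfam.pos hp
  have h5 : K * lam p ≤ (d * M') * lam p := by
    apply mul_le_mul_of_nonneg_right _ hl
    have : d * M' = d * M + Γ := by rw [hM']; field_simp
    rw [this]; exact hK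
  have h6 : M' * aa p ≤ P * hh A D p + (d * M') * lam p + ε * Real.log n + (C + Γ) * (1 + S) := by
    have e : M' * aa p = M * aa p + (Γ / d) * aa p := by rw [hM']; ring
    have e2 : (C + Γ) * (1 + S) = C * (1 + S) + Γ + Γ * S := by ring
    have e3 : 0 ≤ Γ * S := by positivity
    rw [e, e2]
    linarith
  have h7 : aa p = (M' * aa p) / M' := by field_simp
  have h8 : (M' * aa p) / M' ≤
      (P * hh A D p + (d * M') * lam p + ε * Real.log n + (C + Γ) * (1 + S)) / M' :=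
    div_le_div_of_nonneg_right h6 hM'0.le
  have h9 : (P * hh A D p + (d * M') * lam p + ε * Real.log n + (C + Γ) * (1 + S)) / M' =
      P / M' * hh A D p + d * lam p + (ε * Real.log n + (C + Γ) * (1 + S)) / M' := by
    field_simp
    ring
  have h10 : (ε * Real.log n + (C + Γ) * (1 + S)) / M' ≤
      ε * Real.log n + (C + Γ) * (1 + S) := by
    apply div_le_self _ hM'1
    positivity
  rw [h7]
  linarith

/-- The iteration, with the core in the full form. -/
theorem iter (hcore : S_CORE3) (hext : S_EXT) (hstart : S_START) {d : ℕ} (hd : 14 ≤ d) {c : ℝ}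
    (hc1 : 1 < c) (hc : 0 < d * (c ^ 3 - 4 * c + 2) + c * (3 * c - 1 - c ^ 2)) : AllE d c := by
  have hdR : (14 : ℝ) ≤ d := by exact_mod_cast hd
  have hd0 : (0 : ℝ) < d := by linarith
  by_contra hno
  -- lower bound for `c`
  have hc8 : 8 / 5 ≤ c := by
    by_contra hlt
    push Not at hlt
    have h1 : c ^ 3 - 4 * c + 2 ≤ -(3 / 10) := by
      nlinarith [mul_nonneg (by linarith : 0 ≤ c - 1) (by linarith : 0 ≤ 8 / 5 - c),
        mul_nonneg (mul_nonneg (by linarith : 0 ≤ c - 1) (by linarith : 0 ≤ 8 / 5 - c))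
          (by linarith : 0 ≤ c)]
    have h2 : (d : ℝ) * (c ^ 3 - 4 * c + 2) ≤ 14 * (-(3 / 10)) := by
      nlinarith
    have h3 : c * (3 * c - 1 - c ^ 2) ≤ 2 := by
      have h4 : 3 * c - 1 - c ^ 2 ≤ 5 / 4 := by nlinarith [sq_nonneg (c - 3 / 2)]
      have h5 : c * (3 * c - 1 - c ^ 2) ≤ c * (5 / 4) := mul_le_mul_of_nonneg_left h4 (by linarith)
      linarith
    linarith
  set I : Set ℝ := {x | 1 < x ∧ AllE d x} with hI
  have hI0 : (42 / 25 : ℝ) ∈ I :=
    ⟨by norm_num, hstart d (42 / 25) (by omega) (by norm_num) (by norm_num)⟩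
  have hIc : ∀ x ∈ I, c ≤ x := by
    intro x hx
    by_contra hlt
    push Not at hlt
    exact hno (hx.2.mono hlt.le)
  have hbdd : BddBelow I := ⟨c, hIc⟩
  set m : ℝ := sInf I with hm
  have hcm : c ≤ m := le_csInf ⟨_, hI0⟩ hIc
  have hm2 : m ≤ 42 / 25 := csInf_le hbdd hI0
  have hmE : AllE d m := by
    apply AllE_closed
    intro y hy
    obtain ⟨x, hx, hxy⟩ := exists_lt_of_csInf_lt ⟨_, hI0⟩ hy
    exact hx.2.mono hxy.le
  have hm1 : 1 < m := by linarith
  have hm8 : 8 / 5 ≤ m := by linarith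
  set Γ : ℝ := 3 * m - 1 - m ^ 2 with hΓ
  have hΓ0 : 0 < Γ := by rw [hΓ]; nlinarith
  have hstep := step (d := d) (b := m) (by omega) hm1 hΓ0.le (by
    rw [hΓ]
    nlinarith [mul_nonneg (by linarith : 0 ≤ (d : ℝ) - 14)
      (by nlinarith : 0 ≤ m ^ 2 - 1)]) (hcore d m hm1 (by linarith) hmE)
  set M' : ℝ := m ^ 2 + 3 * m - 2 + Γ / d with hM'
  have hΓd : 0 ≤ Γ / d := by positivity
  have hΓd1 : Γ / d ≤ 1 := by
    rw [div_le_one hd0, hΓ]; nlinarith
  have hM'0 : 0 < M' := by rw [hM']; nlinarith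
  have h1le : 1 < (3 * m ^ 2 + 2 * m - 2) / M' := by
    rw [lt_div_iff₀ hM'0, hM']
    nlinarith
  have hmem : (3 * m ^ 2 + 2 * m - 2) / M' ∈ I := ⟨h1le, hext d _ h1le.le hstep⟩
  have h2 : m ≤ (3 * m ^ 2 + 2 * m - 2) / M' := csInf_le hbdd hmem
  rw [le_div_iff₀ hM'0, hM'] at h2
  have h3 : d * (m ^ 3 - 4 * m + 2) + m * Γ ≤ 0 := by
    have e1 : d * (m * (m ^ 2 + 3 * m - 2 + Γ / d)) =
        d * (m * (m ^ 2 + 3 * m - 2)) + m * Γ := by
      field_simp
    have h4 : d * (m * (m ^ 2 + 3 * m - 2 + Γ / d)) ≤ d * (3 * m ^ 2 + 2 * m - 2) :=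
      mul_le_mul_of_nonneg_left h2 hd0.le
    rw [e1] at h4
    nlinarith
  -- monotonicity
  have h5 : (m - c) * (d * (m ^ 2 + m * c + c ^ 2 - 4) +
      (3 * (m + c) - 1 - (m ^ 2 + m * c + c ^ 2))) =
      (d * (m ^ 3 - 4 * m + 2) + m * Γ) -
        (d * (c ^ 3 - 4 * c + 2) + c * (3 * c - 1 - c ^ 2)) := by
    rw [hΓ]; ring
  have h6 : 0 ≤ (m - c) * (d * (m ^ 2 + m * c + c ^ 2 - 4) +
      (3 * (m + c) - 1 - (m ^ 2 + m * c + c ^ 2))) := by
    apply mul_nonneg (by linarith)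
    have h7 : 3 ≤ m ^ 2 + m * c + c ^ 2 - 4 := by nlinarith
    have h8 : m ^ 2 + m * c + c ^ 2 ≤ 9 := by nlinarith
    have h9 : 14 * 3 ≤ (d : ℝ) * (m ^ 2 + m * c + c ^ 2 - 4) := by
      nlinarith
    linarith
  linarith

end Pool.Agent.Y254HK
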