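import Pool.Agent.Y254.HK.CoreG
import Pool.Agent.Y254.HK.ExtG
import Pool.Agent.Y254.HK.Iter

/-!
# The iteration with a general coefficient of the deficiency
-/

set_option autoImplicit false
set_option linter.unusedVariables false

open Finset
open scoped Classical

namespace Pool.Agent.Y254HK
open Pool.Agent.W904.AK Pool.Agent.W46.HD Pool.Agent.W46.HM Pool.Agent.Y244.HM
  Pool.Agent.W597.HD

/-- Convex combinations of core inequalities. -/
theorem CoreB.comb {d : ℕ} {b Γ1 K1 Γ2 K2 x : ℝ} (hx0 : 0 ≤ x) (hx1 : x ≤ 1)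
    (h1 : CoreB d b Γ1 K1) (h2 : CoreB d b Γ2 K2) :
    CoreB d b (x * Γ1 + (1 - x) * Γ2) (x * K1 + (1 - x) * K2) := by
  intro ε hε
  obtain ⟨C1, hC1, h1⟩ := h1 ε hε
  obtain ⟨C2, hC2, h2⟩ := h2 ε hε
  refine ⟨x * C1 + (1 - x) * C2, by
    have := mul_nonneg hx0 hC1
    have := mul_nonneg (by linarith : 0 ≤ 1 - x) hC2
    linarith, ?_⟩
  intro n Ω _ A D hfam p hp S hsep hang
  have k1 := mul_le_mul_of_nonneg_left (h1 n Ω A D hfam p hp S hsep hang) hx0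
  have k2 := mul_le_mul_of_nonneg_left (h2 n Ω A D hfam p hp S hsep hang)
    (by linarith : 0 ≤ 1 - x)
  generalize b ^ 2 + 3 * b - 2 = M at k1 k2 ⊢
  generalize 3 * b ^ 2 + 2 * b - 2 = P at k1 k2 ⊢
  have e1 : M * aa p + (x * Γ1 + (1 - x) * Γ2) * Real.log n =
      x * (M * aa p + Γ1 * Real.log n) + (1 - x) * (M * aa p + Γ2 * Real.log n) := by ring
  have e2 : P * hh A D p + (x * K1 + (1 - x) * K2) * lam p + ε * Real.log n +
      (x * C1 + (1 - x) * C2) * (1 + S) =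
      x * (P * hh A D p + K1 * lam p + ε * Real.log n + C1 * (1 + S)) +
      (1 - x) * (P * hh A D p + K2 * lam p + ε * Real.log n + C2 * (1 + S)) := by ring
  rw [e1, e2]
  linarith

theorem AllG.mono {d : ℕ} {b c G : ℝ} (hbc : b ≤ c) (h : AllG d b G) : AllG d c G := by
  intro ε hε
  obtain ⟨C, hC, h⟩ := h ε hε
  refine ⟨C, hC, ?_⟩
  intro n Ω _ A D hfam p hp
  have h1 := h n Ω A D hfam p hp
  have h2 : b * hh A D p ≤ c * hh A D p := mul_le_mul_of_nonneg_right hbc (hh_nonneg hp)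
  linarith

theorem AllG_closed {d : ℕ} {m G : ℝ} (h : ∀ c : ℝ, m < c → AllG d c G) : AllG d m G := by
  intro ε hε
  set η : ℝ := ε / (2 * (d + 1)) with hη
  have hη0 : 0 < η := by positivity
  have hηd : η * d ≤ ε / 2 := by
    have e : η * (d + 1) = ε / 2 := by rw [hη]; field_simp
    nlinarith
  obtain ⟨C, hC, h⟩ := h (m + η) (by linarith) (ε / 2) (by linarith)
  refine ⟨C + ε / 2, by positivity, ?_⟩
  intro n Ω _ A D hfam p hp
  have h1 := h n Ω A D hfam p hp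
  have h2 := hh_le_aa (A := A) (D := D) hp
  have h3 := aa_le hfam hp
  have hN : 0 ≤ Real.log n := Real.log_nonneg (by exact_mod_cast hfam.pos)
  have h4 : η * hh A D p ≤ η * (d * (1 + Real.log n)) :=
    mul_le_mul_of_nonneg_left (h2.trans h3) hη0.le
  have h5 : η * (d * (1 + Real.log n)) = (η * d) * (1 + Real.log n) := by ring
  have h6 : (η * d) * (1 + Real.log n) ≤ (ε / 2) * (1 + Real.log n) :=
    mul_le_mul_of_nonneg_right hηd (by linarith)
  have h7 : (m + η) * hh A D p = m * hh A D p + η * hh A D p := by ring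
  rw [h7] at h1
  linarith

/-- One step of the iteration, from the core inequality. -/
theorem stepG {d : ℕ} {b G Γ K : ℝ} (hd : 1 ≤ d) (hb : 1 < b) (hΓ : 0 ≤ Γ)
    (hK : K ≤ G * (b ^ 2 + 3 * b - 2 + Γ / d)) (h : CoreB d b Γ K) :
    AllBG d ((3 * b ^ 2 + 2 * b - 2) / (b ^ 2 + 3 * b - 2 + Γ / d)) G := by
  have hd0 : (0 : ℝ) < d := by exact_mod_cast hd
  set M : ℝ := b ^ 2 + 3 * b - 2 with hM
  set P : ℝ := 3 * b ^ 2 + 2 * b - 2 with hP
  have hM1 : 1 ≤ M := by rw [hM]; nlinarith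
  set M' : ℝ := M + Γ / d with hM'
  have hΓd : 0 ≤ Γ / d := by positivity
  have hM'1 : 1 ≤ M' := by rw [hM']; linarith
  have hM'0 : 0 < M' := by linarith
  intro ε hε
  obtain ⟨C, hC, h⟩ := h ε hε
  refine ⟨C + Γ, by positivity, ?_⟩
  intro n Ω _ A D hfam p hp S hsep hang
  have hS : 0 ≤ S := SepM_nonneg hp hsep
  have hN : 0 ≤ Real.log n := Real.log_nonneg (by exact_mod_cast hfam.pos)
  have h1 := h n Ω A D hfam p hp S hsep hang
  have h2 := aa_le hfam hp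
  have h3 : (Γ / d) * aa p ≤ (Γ / d) * (d * (1 + Real.log n)) :=
    mul_le_mul_of_nonneg_left h2 hΓd
  have h4 : (Γ / d) * (d * (1 + Real.log n)) = Γ * (1 + Real.log n) := by
    field_simp
  have hl := lam_nonneg hfam.pos hp
  have h5 : K * lam p ≤ (G * M') * lam p := mul_le_mul_of_nonneg_right hK hl
  have h6 : M' * aa p ≤ P * hh A D p + (G * M') * lam p + ε * Real.log n + (C + Γ) * (1 + S) := by
    have e : M' * aa p = M * aa p + (Γ / d) * aa p := by rw [hM']; ring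
    have e2 : (C + Γ) * (1 + S) = C * (1 + S) + Γ + Γ * S := by ring
    have e3 : 0 ≤ Γ * S := by positivity
    rw [e, e2]
    linarith
  have h7 : aa p = (M' * aa p) / M' := by field_simp
  have h8 : (M' * aa p) / M' ≤
      (P * hh A D p + (G * M') * lam p + ε * Real.log n + (C + Γ) * (1 + S)) / M' :=
    div_le_div_of_nonneg_right h6 hM'0.le
  have h9 : (P * hh A D p + (G * M') * lam p + ε * Real.log n + (C + Γ) * (1 + S)) / M' =
      P / M' * hh A D p + G * lam p + (ε * Real.log n + (C + Γ) * (1 + S)) / M' := by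
    field_simp
    ring
  have h10 : (ε * Real.log n + (C + Γ) * (1 + S)) / M' ≤
      ε * Real.log n + (C + Γ) * (1 + S) := by
    apply div_le_self _ hM'1
    positivity
  rw [h7]
  linarith

/-- The iteration with a mixture of the hybrid core (weight `x`) and of the pure core. -/
theorem iterG (hcoreg : S_COREG) (hcorep : S_COREP) (hext : S_EXTG) (hstart : S_STARTG) {d : ℕ}
    (hd : 1 ≤ d) {G x c : ℝ} (hG9 : 9 ≤ G) (hdG : (d : ℝ) ≤ G) (hx0 : 0 ≤ x) (hx1 : x ≤ 1)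
    (hc1 : 1 < c) (hc : 0 < d * (c ^ 3 - 4 * c + 2) + x * (c * (3 * c - 1 - c ^ 2)))
    (hK : ∀ y : ℝ, c ≤ y → y ≤ 42 / 25 → 4 * y ^ 2 + 5 * y - 4 + x * (3 * y ^ 2 + 1) ≤
      G * (y ^ 2 - 1 + x * (3 * y - 1 - y ^ 2) / d)) : AllG d c G := by
  have hdR : (1 : ℝ) ≤ d := by exact_mod_cast hd
  have hd0 : (0 : ℝ) < d := by linarith
  have hG0 : 0 ≤ G := by linarith
  by_contra hno
  set I : Set ℝ := {y | 1 < y ∧ AllG d y G} with hI
  have hI0 : (42 / 25 : ℝ) ∈ I :=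
    ⟨by norm_num, hstart d (42 / 25) G hG9 hdG (by norm_num) (by norm_num)⟩
  have hIc : ∀ y ∈ I, c ≤ y := by
    intro y hy
    by_contra hlt
    push Not at hlt
    exact hno (hy.2.mono hlt.le)
  have hbdd : BddBelow I := ⟨c, hIc⟩
  set m : ℝ := sInf I with hm
  have hcm : c ≤ m := le_csInf ⟨_, hI0⟩ hIc
  have hm2 : m ≤ 42 / 25 := csInf_le hbdd hI0
  have hmE : AllG d m G := by
    apply AllG_closed
    intro y hy
    obtain ⟨z, hz, hzy⟩ := exists_lt_of_csInf_lt ⟨_, hI0⟩ hy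
    exact hz.2.mono hzy.le
  have hm1 : 1 < m := by linarith
  set Γ : ℝ := 3 * m - 1 - m ^ 2 with hΓ
  have hΓ0 : 0 < Γ := by rw [hΓ]; nlinarith
  have hΓ1 : Γ ≤ 5 / 4 := by rw [hΓ]; nlinarith [sq_nonneg (m - 3 / 2)]
  have hxΓ : 0 ≤ x * Γ := mul_nonneg hx0 hΓ0.le
  have hxΓ1 : x * Γ ≤ 5 / 4 := by
    have := mul_le_mul hx1 hΓ1 hΓ0.le one_pos.le
    linarith
  have hcomb := CoreB.comb hx0 hx1 (hcoreg d m G hm1 (by linarith) hG0 hmE)
    (hcorep d m G hm1 (by linarith) hG0 hmE)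
  have e0 : x * (3 * m - 1 - m ^ 2) + (1 - x) * 0 = x * Γ := by rw [hΓ]; ring
  rw [e0] at hcomb
  have hstep := stepG (d := d) (b := m) (G := G) hd hm1 hxΓ (by
    have h1 := hK m hcm hm2
    have e1 : x * (3 * m - 1 - m ^ 2) / d = x * Γ / d := by rw [hΓ]
    rw [e1] at h1
    have e2 : G * (m ^ 2 + 3 * m - 2 + x * Γ / d) =
        G * (m ^ 2 - 1 + x * Γ / d) + (3 * m - 1) * G := by ring
    rw [e2]
    have e3 : x * (7 * m ^ 2 + 5 * m - 3 + (3 * m - 1) * G) +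
        (1 - x) * (4 * m ^ 2 + 5 * m - 4 + (3 * m - 1) * G) =
        (4 * m ^ 2 + 5 * m - 4 + x * (3 * m ^ 2 + 1)) + (3 * m - 1) * G := by ring
    rw [e3]
    linarith) hcomb
  set M' : ℝ := m ^ 2 + 3 * m - 2 + x * Γ / d with hM'
  have hΓd : 0 ≤ x * Γ / d := by positivity
  have hΓd1 : x * Γ / d ≤ x * Γ := div_le_self hxΓ hdR
  have hM'0 : 0 < M' := by rw [hM']; nlinarith
  have h1le : 1 ≤ (3 * m ^ 2 + 2 * m - 2) / M' := by
    rw [le_div_iff₀ hM'0, hM']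
    have : x * Γ ≤ Γ := mul_le_of_le_one_left hΓ0.le hx1
    have h2 : Γ = 3 * m - 1 - m ^ 2 := hΓ
    nlinarith
  have hnew : AllG d ((3 * m ^ 2 + 2 * m - 2) / M') G := hext d _ G h1le hdG hstep
  -- the new exponent is not smaller
  have h2 : m ≤ (3 * m ^ 2 + 2 * m - 2) / M' := by
    by_contra hlt
    push Not at hlt
    obtain ⟨y, hy1, hy2⟩ := exists_between (max_lt hlt hm1)
    have hmem : y ∈ I := ⟨lt_of_le_of_lt (le_max_right _ _) hy1,
      hnew.mono (le_trans (le_max_left _ _) hy1.le)⟩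
    exact absurd (csInf_le hbdd hmem) (not_le.2 hy2)
  rw [le_div_iff₀ hM'0, hM'] at h2
  have h3 : d * (m ^ 3 - 4 * m + 2) + x * (m * Γ) ≤ 0 := by
    have e1 : d * (m * (m ^ 2 + 3 * m - 2 + x * Γ / d)) =
        d * (m * (m ^ 2 + 3 * m - 2)) + x * (m * Γ) := by
      field_simp
    have h4 : d * (m * (m ^ 2 + 3 * m - 2 + x * Γ / d)) ≤ d * (3 * m ^ 2 + 2 * m - 2) :=
      mul_le_mul_of_nonneg_left h2 hd0.le
    rw [e1] at h4
    have e5 : d * (m ^ 3 - 4 * m + 2) = d * (m * (m ^ 2 + 3 * m - 2)) -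
      d * (3 * m ^ 2 + 2 * m - 2) := by ring
    rw [e5]
    linarith
  -- convexity
  have h5 : (m - c) * (x - d) + (c - 1) * (d * (m ^ 3 - 4 * m + 2) + x * (m * Γ)) -
      (m - 1) * (d * (c ^ 3 - 4 * c + 2) + x * (c * (3 * c - 1 - c ^ 2))) =
      (m - c) * (c - 1) * (m - 1) * ((d - x) * (1 + c + m) + 3 * x) := by
    rw [hΓ]; ring
  have h6 : 0 ≤ (m - c) * (c - 1) * (m - 1) * ((d - x) * (1 + c + m) + 3 * x) := by
    have a1 : 0 ≤ (d - x) * (1 + c + m) := mul_nonneg (by linarith) (by linarith)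
    have a2 : 0 ≤ (m - c) * (c - 1) * (m - 1) :=
      mul_nonneg (mul_nonneg (by linarith) (by linarith)) (by linarith)
    exact mul_nonneg a2 (by linarith)
  have h7 : (m - c) * (x - d) ≤ 0 :=
    mul_nonpos_of_nonneg_of_nonpos (by linarith) (by linarith)
  have h8 : (c - 1) * (d * (m ^ 3 - 4 * m + 2) + x * (m * Γ)) ≤ 0 :=
    mul_nonpos_of_nonneg_of_nonpos (by linarith) h3
  have h9 : 0 < (m - 1) * (d * (c ^ 3 - 4 * c + 2) + x * (c * (3 * c - 1 - c ^ 2))) :=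
    mul_pos (by linarith) hc
  linarith

/-- The iteration for sets: the coefficient `G` is large. -/
theorem iter_sets (hcoreg : S_COREG) (hcorep : S_COREP) (hext : S_EXTG) (hstart : S_STARTG) {d : ℕ}
    (hd : 1 ≤ d) {c : ℝ} (hc1 : 1 < c)
    (hc : 0 < d * (c ^ 3 - 4 * c + 2) + c * (3 * c - 1 - c ^ 2)) : ∃ G : ℝ, AllG d c G := by
  have hdR : (1 : ℝ) ≤ d := by exact_mod_cast hd
  have hd0 : (0 : ℝ) < d := by linarith
  have h1 : 0 < c ^ 2 - 1 := by nlinarith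
  refine ⟨30 / (c ^ 2 - 1) + d + 9, iterG hcoreg hcorep hext hstart hd (x := 1) ?_ ?_ (by norm_num)
    le_rfl hc1 (by linarith) ?_⟩
  · have : 0 ≤ 30 / (c ^ 2 - 1) := by positivity
    linarith
  · have : 0 ≤ 30 / (c ^ 2 - 1) := by positivity
    linarith
  · intro y hy hy2
    have h2 : 0 ≤ 30 / (c ^ 2 - 1) := by positivity
    have h3 : c ^ 2 - 1 ≤ y ^ 2 - 1 := by nlinarith
    have h4 : (0 : ℝ) ≤ 1 * (3 * y - 1 - y ^ 2) / d := by
      apply div_nonneg _ hd0.le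
      nlinarith
    have h5 : 30 / (c ^ 2 - 1) * (c ^ 2 - 1) = 30 := by field_simp
    have h6 : 30 / (c ^ 2 - 1) * (c ^ 2 - 1) ≤
        (30 / (c ^ 2 - 1) + d + 9) * (y ^ 2 - 1 + 1 * (3 * y - 1 - y ^ 2) / d) :=
      mul_le_mul (by linarith) (by linarith) h1.le (by linarith)
    rw [h5] at h6
    nlinarith

/-- The iteration for the maximal function: `G = d`. -/
theorem iter_max (hcoreg : S_COREG) (hcorep : S_COREP) (hext : S_EXTG) (hstart : S_STARTG) {d : ℕ}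
    (hd : 9 ≤ d) {x c : ℝ} (hx0 : 0 ≤ x) (hx1 : x ≤ 1) (hc1 : 1 < c)
    (hc : 0 < d * (c ^ 3 - 4 * c + 2) + x * (c * (3 * c - 1 - c ^ 2)))
    (hK : 4 * c ^ 2 + 5 * c - 4 + x * (3 * c ^ 2 + 1) ≤
      d * (c ^ 2 - 1) + x * (3 * c - 1 - c ^ 2)) : AllG d c d := by
  have hdR : (9 : ℝ) ≤ d := by exact_mod_cast hd
  have hd0 : (0 : ℝ) < d := by linarith
  -- lower bound for `c`
  have hc8 : 8 / 5 ≤ c := by
    by_contra hlt
    push Not at hlt
    have h1 : c ^ 3 - 4 * c + 2 ≤ -(3 / 10) := by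
      nlinarith [mul_nonneg (by linarith : 0 ≤ c - 1) (by linarith : 0 ≤ 8 / 5 - c),
        mul_nonneg (mul_nonneg (by linarith : 0 ≤ c - 1) (by linarith : 0 ≤ 8 / 5 - c))
          (by linarith : 0 ≤ c)]
    have h2 : (d : ℝ) * (c ^ 3 - 4 * c + 2) ≤ 9 * (-(3 / 10)) := by
      nlinarith
    have h3 : c * (3 * c - 1 - c ^ 2) ≤ 2 := by
      have h4 : 3 * c - 1 - c ^ 2 ≤ 5 / 4 := by nlinarith [sq_nonneg (c - 3 / 2)]
      have h5 : c * (3 * c - 1 - c ^ 2) ≤ c * (5 / 4) := mul_le_mul_of_nonneg_left h4 (by linarith)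
      linarith
    have h4 : x * (c * (3 * c - 1 - c ^ 2)) ≤ 2 := by
      have h5 : 0 ≤ c * (3 * c - 1 - c ^ 2) := mul_nonneg (by linarith) (by nlinarith)
      have := mul_le_of_le_one_left h5 hx1
      linarith
    linarith
  refine iterG hcoreg hcorep hext hstart (by omega) hdR le_rfl hx0 hx1 hc1 hc ?_
  intro y hy hy2
  have e1 : (d : ℝ) * (y ^ 2 - 1 + x * (3 * y - 1 - y ^ 2) / d) =
      d * (y ^ 2 - 1) + x * (3 * y - 1 - y ^ 2) := by
    field_simp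
  rw [e1]
  have e2 : (d * (y ^ 2 - 1) + x * (3 * y - 1 - y ^ 2) -
      (4 * y ^ 2 + 5 * y - 4 + x * (3 * y ^ 2 + 1))) -
      (d * (c ^ 2 - 1) + x * (3 * c - 1 - c ^ 2) - (4 * c ^ 2 + 5 * c - 4 + x * (3 * c ^ 2 + 1))) =
      (y - c) * ((d - 4 - 4 * x) * (y + c) - 5 + 3 * x) := by ring
  have h1 : 0 ≤ (d - 4 - 4 * x) * (y + c) - 5 + 3 * x := by
    nlinarith [mul_nonneg hx0 (by linarith : 0 ≤ y - 8 / 5),
      mul_nonneg (by linarith : 0 ≤ (d : ℝ) - 5 - 4 * x) (by linarith : 0 ≤ y + c - 16 / 5)]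
  have h2 : 0 ≤ (y - c) * ((d - 4 - 4 * x) * (y + c) - 5 + 3 * x) :=
    mul_nonneg (by linarith) h1
  linarith

end Pool.Agent.Y254HK
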