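import Pool.Agent.Y254.HK.FinalG

/-!
# The counting inequality in all dimensions
-/

set_option autoImplicit false

namespace Pool.Agent.Y254HK

theorem gg_pos {d : ℕ} (hd : 1 ≤ d) {c c' : ℝ} (hc1 : 1 ≤ c) (hc : 0 ≤ gg d c) (hcc : c < c') :
    0 < gg d c' := by
  have hdR : (1 : ℝ) ≤ d := by exact_mod_cast hd
  unfold gg at hc ⊢
  rcases hc1.eq_or_lt with h1 | h1
  · subst h1
    have hd1 : (d : ℝ) = 1 := by linarith
    rw [hd1]
    have e : 1 * (c' ^ 3 - 4 * c' + 2) + c' * (3 * c' - 1 - c' ^ 2) =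
        (c' - 1) * (3 * c' - 2) := by ring
    rw [e]
    exact mul_pos (by linarith) (by linarith)
  · have e : (c - 1) * (d * (c' ^ 3 - 4 * c' + 2) + c' * (3 * c' - 1 - c' ^ 2)) =
        (c' - 1) * (d * (c ^ 3 - 4 * c + 2) + c * (3 * c - 1 - c ^ 2)) +
        (c' - c) * (d - 1) +
        (c' - c) * (c - 1) * (c' - 1) * ((d - 1) * (1 + c + c') + 3) := by ring
    have h2 : 0 ≤ (c' - 1) * (d * (c ^ 3 - 4 * c + 2) + c * (3 * c - 1 - c ^ 2)) :=
      mul_nonneg (by linarith) hc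
    have h3 : 0 ≤ (c' - c) * ((d : ℝ) - 1) := mul_nonneg (by linarith) (by linarith)
    have h4 : 0 < (c' - c) * (c - 1) * (c' - 1) * ((d - 1) * (1 + c + c') + 3) := by
      apply mul_pos
      · exact mul_pos (mul_pos (by linarith) (by linarith)) (by linarith)
      · have : 0 ≤ ((d : ℝ) - 1) * (1 + c + c') := mul_nonneg (by linarith) (by linarith)
        linarith
    have h5 : 0 < (c - 1) * (d * (c' ^ 3 - 4 * c' + 2) + c' * (3 * c' - 1 - c' ^ 2)) := by
      rw [e]; linarith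
    exact (mul_pos_iff_of_pos_left (by linarith)).1 h5

theorem dense_all {d : ℕ} (hd : 1 ≤ d) {c : ℝ} (hc1 : 1 ≤ c) (hc : 0 ≤ gg d c) :
    ∀ c' : ℝ, c < c' → DenseG d c' := fun c' hcc =>
  dense_hk hd (by linarith) (gg_pos hd hc1 hc hcc)

end Pool.Agent.Y254HK
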