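import Pool.Agent.Y254.HK.Stm

/-!
# Project HK: statements with a general coefficient of the deficiency

For the dimension of sets the coefficient `G` of the deficiency is irrelevant, so `G` may be larger
than `d`.
-/

set_option autoImplicit false

open Finset MeasureTheory
open scoped Classical

namespace Pool.Agent.Y254HK
open Pool.Agent.W904.AK Pool.Agent.W46.HD Pool.Agent.W46.HM Pool.Agent.Y244.HM
  Pool.Agent.W597.HD

/-- The general oracle with exponent `b`, coefficient `G` of the deficiency and loss `n ^ ε`. -/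
def AllG (d : ℕ) (b G : ℝ) : Prop := ∀ ε : ℝ, 0 < ε → ∃ C : ℝ, 0 ≤ C ∧
    ∀ (n : ℕ) (Ω : Type) [Fintype Ω] (A D : Ω → Fin d → ℝ), IsFam n D →
      OrM n A D b G (ε * Real.log n + C)

/-- The oracle for two-ends, broad laws. -/
def AllBG (d : ℕ) (b G : ℝ) : Prop := ∀ ε : ℝ, 0 < ε → ∃ C : ℝ, 0 ≤ C ∧
    ∀ (n : ℕ) (Ω : Type) [Fintype Ω] (A D : Ω → Fin d → ℝ), IsFam n D →
    ∀ p : Ω × Fin n → ℝ, IsLaw p → ∀ S : ℝ, SepM p S → ang A D p ≤ S →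
      aa p ≤ b * hh A D p + G * lam p + ε * Real.log n + C * (1 + S)

/-- `Cons` with a general coefficient `G` of the oracle. -/
def ConsG (F : ∀ (d n : ℕ) (Ω : Type) (_ : Fintype Ω) (A D : Ω → Fin d → ℝ) (p : Ω × Fin n → ℝ)
    (Θ : Type) (_ : Fintype Θ) (q : Θ → ℝ)
    (l1 l2 l3 : Θ → Ω) (s0 s1 t t' τ v : Θ → Fin n) (b G E : ℝ), Prop) : Prop :=
  ∀ (d : ℕ) (b G : ℝ), 1 < b → 0 ≤ G → ∃ C : ℝ, 0 ≤ C ∧ ∀ (n : ℕ) (Ω : Type) (iΩ : Fintype Ω)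
    (A D : Ω → Fin d → ℝ), IsFam n D → ∀ (p : Ω × Fin n → ℝ) (S E C0 : ℝ), IsLaw p →
    ∀ (Θ : Type) (iΘ : Fintype Θ) (q : Θ → ℝ) (l1 l2 l3 : Θ → Ω) (s0 s1 t t' τ v : Θ → Fin n),
    CfgU A D p S q l1 l2 l3 s0 s1 t t' τ v → Geo A D q l1 l2 l3 s0 s1 t t' τ v E →
    0 ≤ E → 0 ≤ C0 → OrM n A D b G C0 →
    F d n Ω iΩ A D p Θ iΘ q l1 l2 l3 s0 s1 t t' τ v b G (C * (E + C0))

/-- The deficiencies and the sizes of the configuration. -/
def S_WG : Prop := ConsG fun _ n _ _ A D p _ _ q l1 l2 l3 s0 s1 t t' τ v _ _ E =>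
  0 ≤ wT q l1 l3 s0 s1 t t' ∧ 0 ≤ wG q l1 l2 l3 s0 s1 t t' τ v ∧
  wT q l1 l3 s0 s1 t t' ≤ 2 * lam p + E ∧
  wT q l1 l3 s0 s1 t t' + wG q l1 l2 l3 s0 s1 t t' τ v ≤ 3 * lam p + E ∧
  2 * aa p - hh A D p + 3 * Real.log n - 5 * lam p + wT q l1 l3 s0 s1 t t' ≤
    H q (fun z => (l1 z, l3 z, s0 z, s1 z, YY s0 s1 t t' z)) + E ∧
  3 * aa p - 2 * hh A D p + 4 * Real.log n - 8 * lam p + wT q l1 l3 s0 s1 t t' +
    wG q l1 l2 l3 s0 s1 t t' τ v ≤
    H q (fun z => (l1 z, l2 z, l3 z, s0 z, s1 z, v z, MM s0 s1 t t' τ v z)) + E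

/-- The first inequality. -/
def S_A1G : Prop := ConsG fun _ n _ _ A D p _ _ q l1 _ l3 s0 s1 t t' _ _ b G E =>
  2 * aa p - hh A D p + 3 * Real.log n + (b - 1) * H q (XX A D l1 l3 s0 s1 t t') ≤
    b * (H q (fun z => (t z, t' z, cell A D (t z) (l1 z), cell A D (t' z) (l3 z))) -
      (H q (fun z => ((cell A D (t z) (l1 z), XX A D l1 l3 s0 s1 t t' z, t z), t' z)) -
        H q (fun z => (cell A D (t z) (l1 z), XX A D l1 l3 s0 s1 t t' z, t z)))) +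
    (H q (fun z => ((l1 z, XX A D l1 l3 s0 s1 t t' z), s1 z)) -
      H q (fun z => (l1 z, XX A D l1 l3 s0 s1 t t' z))) +
    5 * lam p + (b + G - 1) * wT q l1 l3 s0 s1 t t' + E

/-- The use of Cordoba's argument in the first inequality. -/
def S_A2G : Prop := ConsG fun _ n _ _ A D p _ _ q l1 _ l3 s0 s1 t t' _ _ _ _ E =>
  H q (fun z => ((l1 z, XX A D l1 l3 s0 s1 t t' z), s1 z)) -
      H q (fun z => (l1 z, XX A D l1 l3 s0 s1 t t' z)) ≤
    (H q (fun z => ((cell A D (t z) (l1 z), XX A D l1 l3 s0 s1 t t' z, t z), t' z)) -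
        H q (fun z => (cell A D (t z) (l1 z), XX A D l1 l3 s0 s1 t t' z, t z))) +
    2 * wT q l1 l3 s0 s1 t t' + E

/-- The meeting height `s0` given `l3` and the point of `l1` at the height `s1`. -/
def S_K1G : Prop := ConsG fun _ n _ _ A D p _ _ q l1 _ l3 s0 s1 _ _ _ _ _ _ E =>
  H q (fun z => ((l3 z, s1 z, cell A D (s1 z) (l1 z)), s0 z)) ≤
    H q (fun z => (l3 z, s1 z, cell A D (s1 z) (l1 z))) + lam p + E

/-- The second inequality, general form. -/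
def S_B1G : Prop := ConsG fun _ n _ _ A D p _ _ q l1 l2 l3 s0 s1 t t' τ v b G E =>
  3 * aa p - 2 * hh A D p + 4 * Real.log n +
      (b - 1) * H q (WW A D l2 l3 s0 s1 t t' τ v) ≤
    b * (hh A D p + Real.log n + H q (XX A D l1 l3 s0 s1 t t') -
      (H q (fun z => (l2 z, WW A D l2 l3 s0 s1 t t' τ v z, τ z,
        (XX A D l1 l3 s0 s1 t t' z).1)) -
      H q (fun z => (l2 z, WW A D l2 l3 s0 s1 t t' τ v z, τ z)))) +
    (H q (fun z => (l2 z, WW A D l2 l3 s0 s1 t t' τ v z, v z, s1 z)) -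
      H q (fun z => (l2 z, WW A D l2 l3 s0 s1 t t' τ v z))) +
    (H q (fun z => ((l3 z, s1 z, cell A D (s1 z) (l1 z)), s0 z)) -
      H q (fun z => (l3 z, s1 z, cell A D (s1 z) (l1 z)))) +
    8 * lam p - wT q l1 l3 s0 s1 t t' + (b + G - 1) * wG q l1 l2 l3 s0 s1 t t' τ v + E

/-- The simple bound for the entropy of `v`, `s1` given `l2` and `G`. -/
def S_B2G : Prop := ConsG fun _ n _ _ A D p _ _ q l1 l2 l3 s0 s1 t t' τ v _ _ E =>
  H q (fun z => (l2 z, WW A D l2 l3 s0 s1 t t' τ v z, v z, s1 z)) -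
      H q (fun z => (l2 z, WW A D l2 l3 s0 s1 t t' τ v z)) ≤
    (H q (fun z => (l2 z, WW A D l2 l3 s0 s1 t t' τ v z, τ z,
        (XX A D l1 l3 s0 s1 t t' z).1)) -
      H q (fun z => (l2 z, WW A D l2 l3 s0 s1 t t' τ v z, τ z))) + Real.log n +
    wG q l1 l2 l3 s0 s1 t t' τ v + E

/-- The third inequality. -/
def S_C1G : Prop := ConsG fun _ n _ _ A D p _ _ q l1 l2 l3 s0 s1 t t' τ v _ _ E =>
  H q (fun z => (t z, t' z, cell A D (t z) (l1 z), cell A D (t' z) (l3 z))) + aa p -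
      2 * hh A D p - Real.log n - 4 * lam p + wT q l1 l3 s0 s1 t t' +
      wG q l1 l2 l3 s0 s1 t t' τ v ≤ H q (WW A D l2 l3 s0 s1 t t' τ v) + E

/-- The core of the hybrid. -/
def S_COREG : Prop := ∀ (d : ℕ) (b G : ℝ), 1 < b → b < 2 → 0 ≤ G → AllG d b G →
    CoreB d b (3 * b - 1 - b ^ 2) (7 * b ^ 2 + 5 * b - 3 + (3 * b - 1) * G)

/-- The core of the pure Katz-Tao iteration (no gain, smaller coefficient of the deficiency). -/
def S_COREP : Prop := ∀ (d : ℕ) (b G : ℝ), 1 < b → b < 2 → 0 ≤ G → AllG d b G →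
    CoreB d b 0 (4 * b ^ 2 + 5 * b - 4 + (3 * b - 1) * G)

/-- Localization to intervals of heights of length `2 ^ k`, one for each line. -/
def S_LHG : Prop := ∀ d : ℕ, ∃ C : ℝ, 0 ≤ C ∧ ∀ (b G M : ℝ) (k : ℕ), 0 ≤ b → (d : ℝ) ≤ G →
    (∀ (Ω : Type) [Fintype Ω] (A D : Ω → Fin d → ℝ), IsFam (2 ^ k) D →
      OrM (2 ^ k) A D b G M) →
    ∀ (n : ℕ) (Ω : Type) [Fintype Ω] (A D : Ω → Fin d → ℝ), IsFam n D → 2 ^ k ≤ n →
    ∀ p : Ω × Fin n → ℝ, IsLaw p → (∃ a : Ω → ℕ, ∀ z, p z ≠ 0 → (z.2 : ℕ) / 2 ^ k = a z.1) →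
      aa p ≤ b * hh A D p + G * lam p + mi p + M + C

/-- Localization to caps of directions of side `2 ^ (-k)`, one for each point. -/
def S_LDG : Prop := ∀ (d : ℕ) (b G : ℝ), 1 ≤ b → (d : ℝ) ≤ G → ∃ C : ℝ, 0 ≤ C ∧
    ∀ (M : ℝ) (k n : ℕ), 2 ^ k ≤ n →
    (∀ (Ω : Type) [Fintype Ω] (A D : Ω → Fin d → ℝ), IsFam ((n + 2 ^ k - 1) / 2 ^ k) D →
      OrM ((n + 2 ^ k - 1) / 2 ^ k) A D b G M) →
    ∀ (Ω : Type) [Fintype Ω] (A D : Ω → Fin d → ℝ), IsFam n D →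
    ∀ p : Ω × Fin n → ℝ, IsLaw p →
      (∃ κ : Fin n × (Fin d → ℤ) → Fin d → ℤ, ∀ z, p z ≠ 0 →
        (fun i => ⌊(2 : ℝ) ^ k * D z.1 i⌋) = κ (ce A D z)) →
      aa p ≤ b * hh A D p + G * lam p + mi p + M + C

/-- From broad, two-ends laws to all laws. -/
def S_EXTG : Prop := ∀ (d : ℕ) (b G : ℝ), 1 ≤ b → (d : ℝ) ≤ G → AllBG d b G → AllG d b G

/-- The start of the iteration, for all dimensions. -/
def S_STARTG : Prop := ∀ (d : ℕ) (c G : ℝ), 9 ≤ G → (d : ℝ) ≤ G → 1 < c →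
    0 < c ^ 3 - 4 * c + 2 → AllG d c G

/-- The counting inequality for lines with dense sets of heights, in dimension `d`, with losses. -/
def DenseG (d : ℕ) (c : ℝ) : Prop := ∀ ε : ℝ, 0 < ε → ∃ C : ℝ, 0 ≤ C ∧ ∀ (n : ℕ) (Ω : Type)
    [Fintype Ω] [Nonempty Ω] (A D : Ω → Fin d → ℝ), IsFam n D →
    ∀ (E : Ω → Finset (Fin n)) (l : ℝ), 0 < l →
    (∀ ω, l * n ≤ ((E ω).card : ℝ)) →
    Real.log (Fintype.card Ω) ≤
      c * Real.log ((∑ j : Fin n,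
        (((Finset.univ.filter fun ω => j ∈ E ω).image (cell A D j)).card : ℝ)) / n) +
      ε * Real.log n + C * (1 + Real.log (1 / l))

/-- From the oracle to the counting inequality. -/
def S_DENSEG : Prop := ∀ (d : ℕ) (c G : ℝ), 0 ≤ c → AllG d c G → DenseG d c

/-- `K` meets, for every direction in the set `U`, a line of this direction in a set of positive
outer length. -/
def ThickIn {n : ℕ} (U : Set (EuclideanSpace ℝ (Fin n))) (K : Set (EuclideanSpace ℝ (Fin n))) :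
    Prop :=
  ∀ e ∈ U, ‖e‖ = 1 ∧ ∃ a : EuclideanSpace ℝ (Fin n), 0 < volume {t : ℝ | a + t • e ∈ K}

/-- Hausdorff dimension of sets which meet, for all directions of a set of positive outer surface
measure, a line in a set of positive outer length. -/
def S_HAUSG : Prop := ∀ (d : ℕ) (c : ℝ), 1 ≤ c → (∀ c' : ℝ, c < c' → DenseG d c') →
    ∀ (U K : Set (EuclideanSpace ℝ (Fin (d + 1)))), ThickIn U K →
    (volume : Measure (EuclideanSpace ℝ (Fin (d + 1)))).toSphere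
      {e : Metric.sphere (0 : EuclideanSpace ℝ (Fin (d + 1))) 1 |
        (e : EuclideanSpace ℝ (Fin (d + 1))) ∈ U} ≠ 0 →
    ENNReal.ofReal (1 + d / c) ≤ dimH K

end Pool.Agent.Y254HK
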